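import Pool.Agent.RFS.Closure
import Pool.Agent.H49.RRDefs
import Pool.Agent.Results.MP_3f3e0f_an.PreserverForm

/-!
MP_3f3e0f_an, JR: from the exponents `[2,3]` to all exponents `r ≥ 2`, and the answer to Q1.
-/

open Finset Polynomial

namespace JR

open Pool.Agent.H62LR Pool.Agent.RFS Pool.Agent.H49.RR

/-- the exponents in `[2, 3]` are good for all PF sequences -/
def Base : Prop := ∀ {n : ℕ} {a : ℕ → ℝ}, PF n a → ∀ r : ℝ, 2 ≤ r → r ≤ 3 → PF n (fun k => a k ^ r)

/-- a set of exponents containing `1` and `[2,3]`, closed under `s ↦ s + 1` -/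
theorem pf_of_base {n : ℕ} {a : ℕ → ℝ} (ha : PF n a)
    (h : ∀ r : ℝ, 2 ≤ r → r ≤ 3 → PF n (fun k => a k ^ r)) {r : ℝ} (hr : 2 ≤ r) :
    PF n (fun k => a k ^ r) := by
  have h1 : PF n (fun k => a k ^ (1 : ℝ)) := ha.congr (fun k _ => (Real.rpow_one _).symm)
  have key : ∀ m : ℕ, ∀ s : ℝ, 2 ≤ s → s ≤ 3 + m → PF n (fun k => a k ^ s) := by
    intro m
    induction m with
    | zero =>
      intro s hs1 hs2
      exact h s hs1 (by simpa using hs2)
    | succ m ih =>
      intro s hs1 hs2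
      rcases le_or_gt s 3 with h3 | h3
      · exact h s hs1 h3
      · have h4 := ih (s - 1) (by linarith) (by push_cast at hs2; linarith)
        have := PF_rpow_add ha.1 h4 h1
        simpa using this
  obtain ⟨m, hm⟩ := exists_nat_ge (r - 3)
  exact key m r hr (by linarith)

/-- all real exponents `r ≥ 2` -/
theorem pf_rpow (hB : Base) {n : ℕ} {a : ℕ → ℝ} (ha : PF n a) {r : ℝ} (hr : 2 ≤ r) :
    PF n (fun k => a k ^ r) := pf_of_base ha (hB ha) hr

theorem preserves_rpow (hB : Base) {r : ℝ} (hr : 2 ≤ r) {c : ℝ} (hc : 0 < c) :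
    Preserves (fun t => c * t ^ r) := by
  intro p hp
  exact ((pf_rpow hB (pf_of_pplus hp) hr).const_mul hc).realRooted

/-- the answer to Q1 -/
theorem characterization (hB : Base) (F : ℝ → ℝ) (hF0 : F 0 = 0) (hFnn : ∀ t, 0 ≤ t → 0 ≤ F t) :
    Preserves F ↔ (∀ t, 0 ≤ t → F t = 0) ∨
      ∃ c r : ℝ, 0 < c ∧ (r = 1 ∨ 2 ≤ r) ∧ ∀ t, 0 ≤ t → F t = c * t ^ r := by
  constructor
  · exact Pool.Agent.Results.MP_3f3e0f_an.PreserverForm.result F hF0 hFnn
  · rintro (h | ⟨c, r, hc, hr, h⟩)
    · intro p hp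
      left
      unfold entrywise
      refine Finset.sum_eq_zero (fun k hk => ?_)
      rw [h _ (hp.1 k (Nat.lt_succ_iff.1 (mem_range.1 hk))).le, monomial_zero_right]
    · intro p hp
      have he : entrywise F p = entrywise (fun t => c * t ^ r) p := by
        unfold entrywise
        refine Finset.sum_congr rfl (fun k hk => ?_)
        rw [h _ (hp.1 k (Nat.lt_succ_iff.1 (mem_range.1 hk))).le]
      rw [he]
      have hpf := pf_of_pplus hp
      rcases hr with rfl | hr
      · exact ((hpf.congr (fun k _ => (Real.rpow_one _).symm)).const_mul hc).realRooted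
      · exact preserves_rpow hB hr hc p hp

end JR
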