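import Mathlib

/-!
MP_3f3e0f_an, JR (board 1467): fractional powers.  If `F + F^T = 1` and `T F + F^T T ≥ 0` then
`T^θ F + F^T T^θ ≥ 0` for `0 ≤ θ ≤ 1`.
-/

namespace JR

open Finset MeasureTheory

/-- with `F + F^T = 1` the form of `F` is half a square -/
theorem form_F {n : ℕ} {F : ℕ → ℕ → ℝ} (hF : ∀ j < n, ∀ k < n, F j k + F k j = 1) (v : ℕ → ℝ) :
    ∑ j ∈ range n, ∑ k ∈ range n, v j * v k * F j k = (∑ k ∈ range n, v k) ^ 2 / 2 := by
  have h1 : ∑ j ∈ range n, ∑ k ∈ range n, v j * v k * F j k =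
      ∑ j ∈ range n, ∑ k ∈ range n, v j * v k * F k j := by
    rw [sum_comm]
    refine sum_congr rfl fun j _ => sum_congr rfl fun k _ => ?_
    ring
  have h2 : ∑ j ∈ range n, ∑ k ∈ range n, v j * v k * F j k +
      ∑ j ∈ range n, ∑ k ∈ range n, v j * v k * F k j = (∑ k ∈ range n, v k) ^ 2 := by
    rw [pow_two, sum_mul_sum, ← sum_add_distrib]
    refine sum_congr rfl fun j hj => ?_
    rw [← sum_add_distrib]
    refine sum_congr rfl fun k hk => ?_
    rw [mem_range] at hj hk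
    linear_combination (v j * v k) * hF j hj k hk
  linarith

/-- the resolvent form -/
theorem form_res {n : ℕ} {T : ℕ → ℝ} {F : ℕ → ℕ → ℝ} (hT : ∀ j < n, 0 < T j)
    (hF : ∀ j < n, ∀ k < n, F j k + F k j = 1)
    (hJ : ∀ v : ℕ → ℝ, 0 ≤ ∑ j ∈ range n, ∑ k ∈ range n, v j * v k * (T j * F j k))
    (w : ℕ → ℝ) {t : ℝ} (ht : 0 ≤ t) :
    0 ≤ ∑ j ∈ range n, ∑ k ∈ range n, w j * w k * (T j / (t + T j) * F j k) := by
  have h1 := form_F hF (fun j => w j / (t + T j) * T j)
  have h2 := hJ (fun j => w j / (t + T j))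
  have e : ∑ j ∈ range n, ∑ k ∈ range n, w j * w k * (T j / (t + T j) * F j k) =
      ∑ j ∈ range n, ∑ k ∈ range n, (w j / (t + T j) * T j) * (w k / (t + T k) * T k) * F j k +
        t * ∑ j ∈ range n, ∑ k ∈ range n, (w j / (t + T j)) * (w k / (t + T k)) * (T j * F j k) := by
    rw [mul_sum, ← sum_add_distrib]
    refine sum_congr rfl fun j hj => ?_
    rw [mul_sum, ← sum_add_distrib]
    refine sum_congr rfl fun k hk => ?_
    rw [mem_range] at hj hk
    have h3 : t + T j ≠ 0 := by have := hT j hj; positivity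
    have h4 : t + T k ≠ 0 := by have := hT k hk; positivity
    field_simp
    ring
  rw [e, h1]
  positivity

/-- **fractional powers** -/
theorem form_frac {n : ℕ} {T : ℕ → ℝ} {F : ℕ → ℕ → ℝ} (hT : ∀ j < n, 0 < T j)
    (hF : ∀ j < n, ∀ k < n, F j k + F k j = 1)
    (hJ : ∀ v : ℕ → ℝ, 0 ≤ ∑ j ∈ range n, ∑ k ∈ range n, v j * v k * (T j * F j k))
    {θ : ℝ} (h0 : 0 ≤ θ) (h1 : θ ≤ 1) (w : ℕ → ℝ) :
    0 ≤ ∑ j ∈ range n, ∑ k ∈ range n, w j * w k * (T j ^ θ * F j k) := by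
  rcases eq_or_lt_of_le h0 with h | h0
  · subst h
    simp only [Real.rpow_zero, one_mul]
    rw [form_F hF]
    positivity
  rcases eq_or_lt_of_le h1 with h | h1
  · subst h
    simp only [Real.rpow_one]
    exact hJ w
  obtain ⟨m, hm⟩ := Real.exists_measure_rpow_eq_integral_rpowIntegrand₀₁ ⟨h0, h1⟩
  have hint : ∀ j < n, IntegrableOn (fun t => Real.rpowIntegrand₀₁ θ t (T j)) (Set.Ioi 0) m :=
    fun j hj => (hm _ (by simpa using (hT j hj).le)).1
  have hval : ∀ j < n, T j ^ θ = ∫ t in Set.Ioi 0, Real.rpowIntegrand₀₁ θ t (T j) ∂m :=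
    fun j hj => (hm _ (by simpa using (hT j hj).le)).2
  have hform : ∑ j ∈ range n, ∑ k ∈ range n, w j * w k * (T j ^ θ * F j k) =
      ∫ t in Set.Ioi 0, ∑ j ∈ range n, ∑ k ∈ range n,
        w j * w k * F j k * Real.rpowIntegrand₀₁ θ t (T j) ∂m := by
    rw [integral_finsetSum _ (fun j hj => ?_)]
    · refine sum_congr rfl fun j hj => ?_
      rw [mem_range] at hj
      rw [integral_finsetSum _ (fun k _ => (hint j hj).const_mul _)]
      refine sum_congr rfl fun k _ => ?_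
      rw [integral_const_mul, ← hval j hj]
      ring
    · rw [mem_range] at hj
      exact integrable_finsetSum _ (fun k _ => (hint j hj).const_mul _)
  rw [hform]
  refine setIntegral_nonneg measurableSet_Ioi fun t ht => ?_
  have ht' : (0 : ℝ) < t := ht
  have e : ∑ j ∈ range n, ∑ k ∈ range n, w j * w k * F j k * Real.rpowIntegrand₀₁ θ t (T j) =
      t ^ (θ - 1) * ∑ j ∈ range n, ∑ k ∈ range n, w j * w k * (T j / (t + T j) * F j k) := by
    rw [mul_sum]
    refine sum_congr rfl fun j hj => ?_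
    rw [mul_sum]
    refine sum_congr rfl fun k _ => ?_
    rw [mem_range] at hj
    rw [Real.rpowIntegrand₀₁_eq_pow_div ⟨h0, h1⟩ ht'.le (hT j hj).le]
    ring
  rw [e]
  exact mul_nonneg (Real.rpow_nonneg ht'.le _) (form_res hT hF hJ w ht'.le)

end JR
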