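import Pool.Agent.JR.KInt
import Pool.Agent.RL2.RepData

/-!
MP_3f3e0f_an, JR: the kernel `K` is positive definite on `0, ..., card V`.
-/

namespace JR

open Finset RL1 RL2

variable {α : Type*} [DecidableEq α]

theorem KI_form_pos (w : α → ℝ) (hw : ∀ a, 0 < w a) (V : Finset α) (c : ℕ → ℝ)
    (hc : ∃ j, j < V.card + 1 ∧ c j ≠ 0) :
    0 < ∑ j ∈ range (V.card + 1), ∑ k ∈ range (V.card + 1), c j * c k * KI w V j k := by
  obtain ⟨j0, hj0, hcj⟩ := hc
  set N := V.card + 1 with hN
  have hcont : ∀ j k, Continuous (fun x : ℝ => 2 * x * hx w V j k x ^ 2) := by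
    intro j k
    have h1 := hx_cont w V j k
    fun_prop
  have hint : ∑ j ∈ range N, ∑ k ∈ range N, c j * c k * KI w V j k
      = ∫ x in (0 : ℝ)..1, ∑ j ∈ range N, ∑ k ∈ range N, c j * c k * (2 * x * hx w V j k x ^ 2) := by
    unfold KI
    rw [intervalIntegral.integral_finsetSum]
    · refine sum_congr rfl fun j _ => ?_
      rw [intervalIntegral.integral_finsetSum]
      · refine sum_congr rfl fun k _ => ?_
        rw [intervalIntegral.integral_const_mul]
      · intro k _
        exact ((hcont j k).const_mul _).intervalIntegrable _ _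
    · intro j _
      exact (continuous_finsetSum _ fun k _ => (hcont j k).const_mul _).intervalIntegrable _ _
  rw [hint]
  set L : ℝ := ∑ j ∈ range N, (ssq w V j * ssq w V j) * c j ^ 2 with hL
  have hLpos : 0 < L := by
    refine Finset.sum_pos' (fun j _ => mul_nonneg (mul_nonneg (ssq_nonneg _ _ _) (ssq_nonneg _ _ _)) (sq_nonneg _))
      ⟨j0, mem_range.2 hj0, ?_⟩
    have h1 : 0 < ssq w V j0 := ssq_pos hw (by omega)
    exact mul_pos (mul_pos h1 h1) (by positivity)
  have hlow : ∀ x : ℝ, 0 ≤ x → x ≤ 1 → x * (1 - x) ^ (V.card + V.card) * (2 * L)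
      ≤ ∑ j ∈ range N, ∑ k ∈ range N, c j * c k * (2 * x * hx w V j k x ^ 2) := by
    intro x h0 h1
    have q := prod_lower (fun j k => hx w V j k x) N (fun j => (1 - x) ^ V.card * ssq w V j)
      (fun j => mul_nonneg (pow_nonneg (sub_nonneg.2 h1) _) (ssq_nonneg _ _ _))
      (fun c => hx_lower w V x h0 h1 N c) w V x h0 h1 c
    have e1 : ∑ j ∈ range N, ∑ k ∈ range N, c j * c k * (2 * x * hx w V j k x ^ 2)
        = 2 * x * ∑ j ∈ range N, ∑ k ∈ range N, c j * c k * (hx w V j k x * hx w V j k x) := by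
      simp only [mul_sum]
      refine sum_congr rfl fun j _ => sum_congr rfl fun k _ => ?_
      ring
    have e2 : x * (1 - x) ^ (V.card + V.card) * (2 * L)
        = 2 * x * ∑ j ∈ range N, ((1 - x) ^ V.card * ssq w V j * ((1 - x) ^ V.card * ssq w V j)) * c j ^ 2 := by
      rw [hL, mul_sum, mul_sum, mul_sum]
      refine sum_congr rfl fun j _ => ?_
      rw [pow_add]
      ring
    rw [e1, e2]
    exact mul_le_mul_of_nonneg_left q (by positivity)
  have h1 : ∫ x in (0 : ℝ)..1, x * (1 - x) ^ (V.card + V.card) * (2 * L)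
      ≤ ∫ x in (0 : ℝ)..1, ∑ j ∈ range N, ∑ k ∈ range N, c j * c k * (2 * x * hx w V j k x ^ 2) := by
    refine intervalIntegral.integral_mono_on (by norm_num)
      (Continuous.intervalIntegrable (by fun_prop) _ _) ?_ ?_
    · exact (continuous_finsetSum _ fun j _ => continuous_finsetSum _ fun k _ => (hcont j k).const_mul _).intervalIntegrable _ _
    · intro x hx
      exact hlow x hx.1 hx.2
  refine lt_of_lt_of_le ?_ h1
  rw [intervalIntegral.integral_mul_const]
  refine mul_pos ?_ (by linarith)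
  refine intervalIntegral.intervalIntegral_pos_of_pos_on
    (Continuous.intervalIntegrable (by fun_prop) _ _) ?_ (by norm_num)
  intro x hx
  exact mul_pos hx.1 (pow_pos (sub_pos.mpr hx.2) _)

/-- the closed form is positive definite -/
theorem Kc_form_pos (w : α → ℝ) (hw : ∀ a, 0 < w a) (V : Finset α) (c : ℕ → ℝ)
    (hc : ∃ j, j < V.card + 1 ∧ c j ≠ 0) :
    0 < ∑ j ∈ range (V.card + 1), ∑ k ∈ range (V.card + 1), c j * c k * Kc (esy w V) j k := by
  have h := KI_form_pos w hw V c hc
  simpa only [KI_eq] using h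

/-- normalised form: `K(j,k) = Kc j k / (a_j^2 a_k^2)` -/
theorem K_form_pos (w : α → ℝ) (hw : ∀ a, 0 < w a) (V : Finset α) (c : ℕ → ℝ)
    (hc : ∃ j, j < V.card + 1 ∧ c j ≠ 0) :
    0 < ∑ j ∈ range (V.card + 1), ∑ k ∈ range (V.card + 1),
      c j * c k * (Kc (esy w V) j k / (esy w V j ^ 2 * esy w V k ^ 2)) := by
  obtain ⟨j0, hj0, hcj⟩ := hc
  have h := Kc_form_pos w hw V (fun j => c j / esy w V j ^ 2)
    ⟨j0, hj0, div_ne_zero hcj (pow_ne_zero _ (esy_pos hw (by omega)).ne')⟩
  refine lt_of_lt_of_eq h ?_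
  refine sum_congr rfl fun j _ => sum_congr rfl fun k _ => ?_
  simp only [div_eq_mul_inv, mul_inv]
  ring

/-- nonnegativity for every coefficient sequence -/
theorem Kc_form_nonneg (w : α → ℝ) (hw : ∀ a, 0 < w a) (V : Finset α) (c : ℕ → ℝ) :
    0 ≤ ∑ j ∈ range (V.card + 1), ∑ k ∈ range (V.card + 1), c j * c k * Kc (esy w V) j k := by
  by_cases h : ∃ j, j < V.card + 1 ∧ c j ≠ 0
  · exact (Kc_form_pos w hw V c h).le
  · push_neg at h
    refine (sum_eq_zero fun j hj => ?_).ge
    rw [mem_range] at hj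
    refine sum_eq_zero fun k _ => ?_
    rw [h j hj]
    ring

end JR
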