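import Pool.Agent.JR.Id
import Pool.Agent.JR.Frac
import Pool.Agent.JR.KPos

/-!
MP_3f3e0f_an, JR (board 1467): `J ≥ 0` implies `D > 0` for all `θ ∈ [0,1]`, `X > 0`.
-/

namespace JR

open Finset RL1 RL2

theorem esy_gt {α : Type*} [DecidableEq α] (w : α → ℝ) (V : Finset α) {m : ℕ} (h : V.card < m) :
    esy w V m = 0 := by
  unfold esy
  rw [powersetCard_eq_empty.2 h, sum_empty]

/-- the form of `T F` in terms of `J` -/
theorem form_TF {a : ℕ → ℝ} {n : ℕ} (ha : ∀ m, m ≤ n → 0 < a m)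
    (hJ : ∀ v : ℕ → ℝ, 0 ≤ ∑ j ∈ range n, ∑ k ∈ range n, v j * v k * Jk a j k) (v : ℕ → ℝ) :
    0 ≤ ∑ j ∈ range n, ∑ k ∈ range n, v j * v k * (Tq a j * Fk a j k) := by
  have h1 : ∑ j ∈ range n, ∑ k ∈ range n, v j * v k * (Tq a j * Fk a j k) =
      ∑ j ∈ range n, ∑ k ∈ range n, v j * v k * (Tq a k * Fk a k j) := by
    rw [sum_comm]
    refine sum_congr rfl fun j _ => sum_congr rfl fun k _ => ?_
    ring
  have h2 : ∑ j ∈ range n, ∑ k ∈ range n, v j * v k * (Tq a j * Fk a j k) +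
      ∑ j ∈ range n, ∑ k ∈ range n, v j * v k * (Tq a k * Fk a k j) =
      ∑ j ∈ range n, ∑ k ∈ range n, (v j * Tq a j) * (v k * Tq a k) * Jk a j k := by
    rw [← sum_add_distrib]
    refine sum_congr rfl fun j hj => ?_
    rw [← sum_add_distrib]
    refine sum_congr rfl fun k hk => ?_
    rw [mem_range] at hj hk
    have h := TF_add_TF (a := a) (j := j) (k := k) (ha j (by omega)).ne' (ha (j + 1) (by omega)).ne'
      (ha k (by omega)).ne' (ha (k + 1) (by omega)).ne'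
    linear_combination (v j * v k) * h
  have h3 := hJ (fun j => v j * Tq a j)
  linarith

/-- **`D > 0`**, in the form used by `Path.lean`. -/
theorem D_pos {α : Type*} [DecidableEq α] {w : α → ℝ} (hw : ∀ a, 0 < w a) (V : Finset α)
    (hJ : ∀ v : ℕ → ℝ, 0 ≤ ∑ j ∈ range V.card, ∑ k ∈ range V.card, v j * v k * Jk (esy w V) j k)
    {θ : ℝ} (h0 : 0 ≤ θ) (h1 : θ ≤ 1) {X : ℝ} (hX : 0 < X) :
    0 < (∑ k ∈ range (V.card + 1), (-X) ^ k * esy w V k ^ (2 + θ)) ^ 2 +
      X * (∑ k ∈ range V.card, (-X) ^ k * esy w V k ^ (1 + θ) * esy w V (k + 1)) *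
        ∑ k ∈ range V.card, (-X) ^ k * esy w V k * esy w V (k + 1) ^ (1 + θ) := by
  set n := V.card with hn
  set a := esy w V with ha'
  have ha : ∀ m, m ≤ n → 0 < a m := fun m hm => esy_pos hw hm
  have hz : ∀ m, n < m → a m = 0 := fun m hm => esy_gt w V hm
  have hT : ∀ j < n, 0 < Tq a j := fun j hj => div_pos (ha j hj.le) (ha (j + 1) hj)
  set c : ℕ → ℝ := fun k => (-X) ^ k * a k ^ (2 + θ) with hc'
  set u : ℕ → ℝ := fun k => (-X) ^ k * a k * a (k + 1) ^ (1 + θ) with hu'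
  have hP : ∀ j < n, Tq a j ^ θ * u j = (-X) ^ j * a j ^ (1 + θ) * a (j + 1) := by
    intro j hj
    have p1 := ha j hj.le
    have p2 := ha (j + 1) hj
    simp only [hu', Tq]
    rw [Real.div_rpow p1.le p2.le, Real.rpow_add p2, Real.rpow_add p1, Real.rpow_one, Real.rpow_one]
    have p3 := (Real.rpow_pos_of_pos p2 θ).ne'
    field_simp
  have hc : ∀ j, j < n → c j = Tq a j * Tq a j ^ θ * u j := by
    intro j hj
    have p1 := ha j hj.le
    have p2 := ha (j + 1) hj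
    rw [mul_assoc, hP j hj]
    simp only [hc', Tq]
    have e : (2 + θ : ℝ) = 1 + (1 + θ) := by ring
    rw [e, Real.rpow_add p1, Real.rpow_one]
    field_simp
  have hw2 : ∀ k, k < n → Tq a k * c (k + 1) = -X * u k := by
    intro k hk
    have p1 := ha k hk.le
    have p2 := ha (k + 1) hk
    simp only [hc', hu', Tq]
    have e : (2 + θ : ℝ) = 1 + (1 + θ) := by ring
    rw [e, Real.rpow_add p2 1 (1 + θ), Real.rpow_one, pow_succ]
    field_simp
  have id := identity (P := fun j => Tq a j ^ θ) ha hz hc hw2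
  have hsum : ∑ k ∈ range n, (-X) ^ k * a k ^ (1 + θ) * a (k + 1) =
      ∑ k ∈ range n, Tq a k ^ θ * u k := by
    refine sum_congr rfl fun k hk => ?_
    rw [mem_range] at hk
    rw [hP k hk]
  rw [hsum]
  have hK := K_form_pos w hw V c ⟨0, by omega, by
    simp only [hc', pow_zero, one_mul]
    exact (Real.rpow_pos_of_pos (ha 0 (Nat.zero_le _)) _).ne'⟩
  have hK' : 0 < ∑ j ∈ range (n + 1), ∑ k ∈ range (n + 1), c j * c k * Kn a j k := hK
  have hF : ∀ j < n, ∀ k < n, Fk a j k + Fk a k j = 1 := fun j hj k hk =>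
    Fk_add (ha j hj.le).ne' (ha (j + 1) hj).ne' (ha k hk.le).ne' (ha (k + 1) hk).ne'
  have hfr := form_frac hT hF (form_TF ha hJ) h0 h1 u
  have hsq : 0 ≤ (∑ k ∈ range (n + 1), c k) ^ 2 := sq_nonneg _
  have hlast : 0 ≤ 2 * X * ∑ j ∈ range n, ∑ k ∈ range n, u j * u k * (Tq a j ^ θ * Fk a j k) := by
    positivity
  have e1 : 2 * ((∑ k ∈ range (n + 1), c k) ^ 2 +
      X * (∑ k ∈ range n, Tq a k ^ θ * u k) * ∑ k ∈ range n, u k) > 0 := by
    rw [id]
    linarith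
  linarith

end JR
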