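import Mathlib
import Pool.Agent.H62LR.Homotopy

/-!
Hermite–Biehler part of the project JR (MP_3f3e0f_an): the polynomial `f(z²) + z g(z²)`.

* `hb_path` : a path of such polynomials of fixed degree without zeros on the imaginary axis which
  starts without zeros in `Re z ≥ 0` has no zeros in `Re z ≥ 0`.
* `hb_pf`   : no zeros in `Re z ≥ 0` implies that `f` is real-rooted.
* `hb_axis` : zeros on the imaginary axis are common zeros of `f` and `g`.
-/

open Polynomial Finset Filter Topology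

namespace Pool.Agent.JR

open Pool.Agent.H62LR

/-- the polynomial `f(z²) + z g(z²)` -/
noncomputable def Hp (n : ℕ) (p q : ℕ → ℝ) (z : ℂ) : ℂ :=
  ∑ j ∈ range (n + 1), (p j : ℂ) * z ^ (2 * j) + ∑ k ∈ range n, (q k : ℂ) * z ^ (2 * k + 1)

/-- the coefficients of `f(z²) + z g(z²)` -/
noncomputable def cf (p q : ℕ → ℝ) (k : ℕ) : ℝ := if k % 2 = 0 then p (k / 2) else q (k / 2)

lemma cf_even (p q : ℕ → ℝ) (j : ℕ) : cf p q (2 * j) = p j := by
  unfold cf
  rw [if_pos (by omega)]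
  congr 1
  omega

lemma cf_odd (p q : ℕ → ℝ) (j : ℕ) : cf p q (2 * j + 1) = q j := by
  unfold cf
  rw [if_neg (by omega)]
  congr 1
  omega

lemma Hp_eq_ev (n : ℕ) (p q : ℕ → ℝ) (z : ℂ) : Hp n p q z = ev (2 * n) (cf p q) z := by
  induction n with
  | zero => simp [Hp, ev, cf]
  | succ n ih =>
    have h1 : ev (2 * (n + 1)) (cf p q) z = ev (2 * n) (cf p q) z +
        (q n : ℂ) * z ^ (2 * n + 1) + (p (n + 1) : ℂ) * z ^ (2 * (n + 1)) := by
      unfold ev
      rw [show 2 * (n + 1) + 1 = (2 * n + 1) + 1 + 1 by ring, sum_range_succ, sum_range_succ,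
        cf_odd, show 2 * n + 1 + 1 = 2 * (n + 1) by ring, cf_even]
    rw [h1, ← ih]
    have h2 : ∑ j ∈ range (n + 1 + 1), (p j : ℂ) * z ^ (2 * j) =
        ∑ j ∈ range (n + 1), (p j : ℂ) * z ^ (2 * j) + (p (n + 1) : ℂ) * z ^ (2 * (n + 1)) :=
      sum_range_succ _ _
    have h3 : ∑ k ∈ range (n + 1), (q k : ℂ) * z ^ (2 * k + 1) =
        ∑ k ∈ range n, (q k : ℂ) * z ^ (2 * k + 1) + (q n : ℂ) * z ^ (2 * n + 1) :=
      sum_range_succ _ _
    unfold Hp
    rw [h2, h3]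
    ring

/-- factorization of a real polynomial of degree `N` over `ℂ` -/
lemma ev_factor {N : ℕ} {c : ℕ → ℝ} (hc : c N ≠ 0) :
    ∃ m : Multiset ℂ, Multiset.card m = N ∧
      (∀ z : ℂ, ev N c z = (c N : ℂ) * (m.map (fun r => z - r)).prod) ∧
      ∀ r ∈ m, ev N c r = 0 := by
  set P : ℂ[X] := (poly N c).map (algebraMap ℝ ℂ) with hP
  have hdeg : P.natDegree = N := by rw [hP, natDegree_map, natDegree_poly hc]
  have hlead : P.leadingCoeff = (c N : ℂ) := by
    rw [leadingCoeff, hdeg, hP, coeff_map, coeff_poly, if_pos le_rfl]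
    rfl
  have hP0 : P ≠ 0 := by
    intro h
    rw [h, leadingCoeff_zero] at hlead
    exact hc (by exact_mod_cast hlead.symm)
  have hev : ∀ z : ℂ, P.eval z = ev N c z := by
    intro z
    rw [hP, eval_map_algebraMap, aeval_poly]
  have hs := IsAlgClosed.splits P
  refine ⟨P.roots, ?_, fun z => ?_, fun r hr => ?_⟩
  · rw [← hs.natDegree_eq_card_roots, hdeg]
  · rw [← hev, hs.eval_eq_prod_roots, hlead]
  · rw [← hev]
    exact (mem_roots hP0).1 hr

lemma prod_lower {m : Multiset ℂ} (hm : ∀ r ∈ m, r.re ≤ 0) {z : ℂ} (hz : 0 < z.re) :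
    z.re ^ (Multiset.card m) ≤ ‖(m.map (fun r => z - r)).prod‖ := by
  induction m using Multiset.induction_on with
  | empty => simp
  | cons r m ih =>
    have h1 := ih (fun x hx => hm x (Multiset.mem_cons_of_mem hx))
    have hr := hm r (Multiset.mem_cons_self _ _)
    rw [Multiset.card_cons, Multiset.map_cons, Multiset.prod_cons, norm_mul, pow_succ, mul_comm]
    refine mul_le_mul ?_ h1 (by positivity) (norm_nonneg _)
    refine le_trans ?_ (Complex.abs_re_le_norm _)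
    rw [Complex.sub_re]
    exact le_trans (by linarith) (le_abs_self _)

lemma lower_re {N : ℕ} {c : ℕ → ℝ} (hc : 0 < c N) (h : ∀ z : ℂ, 0 < z.re → ev N c z ≠ 0) {z : ℂ}
    (hz : 0 < z.re) : c N * z.re ^ N ≤ ‖ev N c z‖ := by
  obtain ⟨m, hcard, hprod, hroot⟩ := ev_factor hc.ne'
  have hm : ∀ r ∈ m, r.re ≤ 0 := by
    intro r hr
    by_contra hcon
    exact h r (not_le.1 hcon) (hroot r hr)
  have h1 := prod_lower hm hz
  rw [hprod, norm_mul, Complex.norm_real, Real.norm_of_nonneg hc.le, ← hcard]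
  rw [hcard] at h1 ⊢
  exact mul_le_mul_of_nonneg_left h1 hc.le

/-- the zeros are bounded -/
lemma zero_bound {N : ℕ} {c : ℕ → ℝ} (hc : 0 < c N) {z : ℂ} (hz : ev N c z = 0) :
    ‖z‖ ≤ 1 + (∑ k ∈ range N, |c k|) / c N := by
  have hS : 0 ≤ ∑ k ∈ range N, |c k| := Finset.sum_nonneg (fun k _ => abs_nonneg _)
  rcases le_or_gt ‖z‖ 1 with h | h
  · have := div_nonneg hS hc.le
    linarith
  · have hz0 : 0 < ‖z‖ := by linarith
    unfold ev at hz
    rw [sum_range_succ] at hz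
    have h1 : (c N : ℂ) * z ^ N = -∑ k ∈ range N, (c k : ℂ) * z ^ k := by
      linear_combination hz
    have h2 : c N * ‖z‖ ^ N ≤ (∑ k ∈ range N, |c k|) * ‖z‖ ^ (N - 1) := by
      calc c N * ‖z‖ ^ N = ‖(c N : ℂ) * z ^ N‖ := by
            rw [norm_mul, norm_pow, Complex.norm_real, Real.norm_of_nonneg hc.le]
        _ = ‖∑ k ∈ range N, (c k : ℂ) * z ^ k‖ := by rw [h1, norm_neg]
        _ ≤ ∑ k ∈ range N, ‖(c k : ℂ) * z ^ k‖ := norm_sum_le _ _
        _ ≤ ∑ k ∈ range N, |c k| * ‖z‖ ^ (N - 1) := by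
            refine Finset.sum_le_sum (fun k hk => ?_)
            rw [norm_mul, norm_pow, Complex.norm_real, Real.norm_eq_abs]
            have hk' : k ≤ N - 1 := by
              have := mem_range.1 hk
              omega
            exact mul_le_mul_of_nonneg_left (pow_le_pow_right₀ h.le hk') (abs_nonneg _)
        _ = _ := by rw [Finset.sum_mul]
    rcases Nat.eq_zero_or_pos N with hN | hN
    · subst hN
      simp at h2
      linarith
    · have h3 : ‖z‖ ^ N = ‖z‖ * ‖z‖ ^ (N - 1) := by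
        rw [← pow_succ']
        congr 1
        omega
      rw [h3, ← mul_assoc] at h2
      have h4 : c N * ‖z‖ ≤ ∑ k ∈ range N, |c k| := by
        have hp : 0 < ‖z‖ ^ (N - 1) := pow_pos hz0 _
        exact le_of_mul_le_mul_right h2 hp
      have h5 : ‖z‖ ≤ (∑ k ∈ range N, |c k|) / c N := by
        rw [le_div_iff₀ hc]
        linarith
      linarith

/-- **Persistence.** A path of real polynomials of degree `N` with positive leading coefficient,
without zeros on the imaginary axis. -/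
theorem path_general {N : ℕ} (a : ℝ → ℕ → ℝ) {c d : ℝ}
    (hcont : ∀ k ≤ N, ContinuousOn (fun s => a s k) (Set.Icc c d))
    (hpos : ∀ s ∈ Set.Icc c d, 0 < a s N)
    (haxis : ∀ s ∈ Set.Icc c d, ∀ z : ℂ, z.re = 0 → ev N (a s) z ≠ 0)
    (h0 : ∀ z : ℂ, 0 ≤ z.re → ev N (a c) z ≠ 0) :
    ∀ s ∈ Set.Icc c d, ∀ z : ℂ, 0 ≤ z.re → ev N (a s) z ≠ 0 := by
  set S : Set ℝ := {s | s ∈ Set.Icc c d → ∀ z : ℂ, 0 ≤ z.re → ev N (a s) z ≠ 0} with hS
  suffices h : Set.Icc c d ⊆ S from fun s hs => h hs hs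
  -- the set of zeros
  set Z : Set (ℝ × ℂ) := {w | w.1 ∈ Set.Icc c d ∧ 0 ≤ w.2.re ∧ ev N (a w.1) w.2 = 0} with hZ
  have hevc : ContinuousOn (fun w : ℝ × ℂ => ev N (a w.1) w.2) (Set.Icc c d ×ˢ Set.univ) := by
    unfold ev
    refine continuousOn_finsetSum _ (fun k hk => ?_)
    have hk' : k ≤ N := by simpa [Nat.lt_succ_iff] using hk
    refine ContinuousOn.mul ?_ (by fun_prop)
    refine Complex.continuous_ofReal.comp_continuousOn ?_
    exact (hcont k hk').comp continuousOn_fst (fun w hw => hw.1)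
  have hZc : IsClosed Z := by
    have e : Z = (Set.Icc c d ×ˢ {z : ℂ | 0 ≤ z.re}) ∩
        ((fun w : ℝ × ℂ => ev N (a w.1) w.2) ⁻¹' {0}) := by
      ext w
      simp only [hZ, Set.mem_ofPred_eq, Set.mem_inter_iff, Set.mem_prod, Set.mem_preimage,
        Set.mem_singleton_iff]
      tauto
    rw [e]
    refine ContinuousOn.preimage_isClosed_of_isClosed (hevc.mono ?_) ?_ isClosed_singleton
    · exact Set.prod_mono_right (Set.subset_univ _)
    · exact isClosed_Icc.prod (isClosed_le continuous_const Complex.continuous_re)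
  have hZb : ∃ R : ℝ, Z ⊆ Set.Icc c d ×ˢ Metric.closedBall (0 : ℂ) R := by
    have hf : ContinuousOn (fun s => 1 + (∑ k ∈ range N, |a s k|) / a s N) (Set.Icc c d) := by
      refine continuousOn_const.add (ContinuousOn.div ?_ (hcont N le_rfl)
        (fun s hs => (hpos s hs).ne'))
      refine continuousOn_finsetSum _ (fun k hk => ?_)
      exact (hcont k (mem_range.1 hk).le).abs
    obtain ⟨R, hR⟩ := isCompact_Icc.bddAbove_image hf
    refine ⟨R, fun w hw => ⟨hw.1, ?_⟩⟩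
    rw [mem_closedBall_zero_iff]
    exact (zero_bound (hpos _ hw.1) hw.2.2).trans (hR ⟨w.1, hw.1, rfl⟩)
  obtain ⟨R, hZR⟩ := hZb
  have hZcomp : IsCompact Z :=
    (isCompact_Icc.prod (isCompact_closedBall (0 : ℂ) R)).of_isClosed_subset hZc hZR
  have hF : IsClosed (Prod.fst '' Z) := (hZcomp.image continuous_fst).isClosed
  have hSF : ∀ s, s ∉ Prod.fst '' Z → s ∈ S := by
    intro s hs hsI z hz h
    exact hs ⟨(s, z), ⟨hsI, hz, h⟩, rfl⟩
  refine IsClosed.Icc_subset_of_forall_mem_nhdsWithin ?_ (fun _ => h0) ?_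
  · -- closed
    have hcz : ∀ z : ℂ, ContinuousOn (fun s => ‖ev N (a s) z‖ - a s N * z.re ^ N)
        (Set.Icc c d) := by
      intro z
      refine ContinuousOn.sub (ContinuousOn.norm ?_) ((hcont N le_rfl).mul continuousOn_const)
      unfold ev
      refine continuousOn_finsetSum _ (fun k hk => ?_)
      have hk' : k ≤ N := by simpa [Nat.lt_succ_iff] using hk
      exact (Complex.continuous_ofReal.comp_continuousOn (hcont k hk')).mul continuousOn_const
    have e : S ∩ Set.Icc c d = ⋂ z : {z : ℂ // 0 < z.re},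
        (Set.Icc c d ∩ (fun s => ‖ev N (a s) z.1‖ - a s N * z.1.re ^ N) ⁻¹' (Set.Ici 0)) := by
      ext s
      simp only [Set.mem_inter_iff, Set.mem_iInter, Set.mem_preimage, Set.mem_Ici, sub_nonneg]
      constructor
      · rintro ⟨h1, h2⟩ z
        exact ⟨h2, lower_re (hpos s h2) (fun w hw => h1 h2 w hw.le) z.2⟩
      · intro h
        have hs := (h ⟨1, by simp⟩).1
        refine ⟨fun _ z hz h1 => ?_, hs⟩
        rcases hz.eq_or_lt with hz | hz
        · exact haxis s hs z hz.symm h1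
        · have h2 := (h ⟨z, hz⟩).2
          rw [h1, norm_zero] at h2
          have h3 := mul_pos (hpos s hs) (pow_pos hz N)
          exact absurd h2 (not_le.2 h3)
    rw [e]
    exact isClosed_iInter (fun z => (hcz z.1).preimage_isClosed_of_isClosed isClosed_Icc
      isClosed_Ici)
  · rintro s0 ⟨hs0, hs0'⟩
    have hs0c : s0 ∈ Set.Icc c d := ⟨hs0'.1, hs0'.2.le⟩
    have hnot : s0 ∉ Prod.fst '' Z := by
      rintro ⟨w, hw, rfl⟩
      exact hs0 hs0c w.2 hw.2.1 hw.2.2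
    have : (Prod.fst '' Z)ᶜ ∈ 𝓝 s0 := hF.isOpen_compl.mem_nhds hnot
    exact mem_nhdsWithin_of_mem_nhds (Filter.mem_of_superset this (fun s hs => hSF s hs))

/-- **HB1.** -/
theorem hb_path {n : ℕ} (p q : ℝ → ℕ → ℝ) {c d : ℝ}
    (hp : ∀ k ≤ n, ContinuousOn (fun s => p s k) (Set.Icc c d))
    (hq : ∀ k < n, ContinuousOn (fun s => q s k) (Set.Icc c d))
    (hpos : ∀ s ∈ Set.Icc c d, 0 < p s n)
    (haxis : ∀ s ∈ Set.Icc c d, ∀ z : ℂ, z.re = 0 → Hp n (p s) (q s) z ≠ 0)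
    (h0 : ∀ z : ℂ, 0 ≤ z.re → Hp n (p c) (q c) z ≠ 0) :
    ∀ s ∈ Set.Icc c d, ∀ z : ℂ, 0 ≤ z.re → Hp n (p s) (q s) z ≠ 0 := by
  have h := path_general (N := 2 * n) (fun s => cf (p s) (q s)) (c := c) (d := d) ?_ ?_ ?_ ?_
  · intro s hs z hz
    rw [Hp_eq_ev]
    exact h s hs z hz
  · intro k hk
    rcases Nat.even_or_odd' k with ⟨j, rfl | rfl⟩
    · simp only [cf_even]
      exact hp j (by omega)
    · simp only [cf_odd]
      exact hq j (by omega)
  · intro s hs
    simp only [cf_even]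
    exact hpos s hs
  · intro s hs z hz
    rw [← Hp_eq_ev]
    exact haxis s hs z hz
  · intro z hz
    rw [← Hp_eq_ev]
    exact h0 z hz

lemma norm_sub_lt {r z : ℂ} (hr : r.re < 0) (hz : 0 < z.re) :
    ‖-(starRingEnd ℂ) z - r‖ < ‖z - r‖ := by
  have h : ‖-(starRingEnd ℂ) z - r‖ ^ 2 < ‖z - r‖ ^ 2 := by
    rw [← Complex.normSq_eq_norm_sq, ← Complex.normSq_eq_norm_sq, Complex.normSq_apply,
      Complex.normSq_apply]
    simp
    nlinarith [mul_pos hz (neg_pos.2 hr)]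
  exact lt_of_pow_lt_pow_left₀ 2 (norm_nonneg _) h

lemma prod_lt {m : Multiset ℂ} (hm : ∀ r ∈ m, r.re < 0) {z : ℂ} (hz : 0 < z.re) :
    ‖(m.map (fun r => -(starRingEnd ℂ) z - r)).prod‖ ≤ ‖(m.map (fun r => z - r)).prod‖ ∧
    0 < ‖(m.map (fun r => z - r)).prod‖ ∧
    (m ≠ 0 → ‖(m.map (fun r => -(starRingEnd ℂ) z - r)).prod‖ <
      ‖(m.map (fun r => z - r)).prod‖) := by
  induction m using Multiset.induction_on with
  | empty => simp
  | cons r m ih =>
    obtain ⟨h1, h2, -⟩ := ih (fun x hx => hm x (Multiset.mem_cons_of_mem hx))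
    have hr := norm_sub_lt (hm r (Multiset.mem_cons_self _ _)) hz
    have hr0 : 0 < ‖z - r‖ := lt_of_le_of_lt (norm_nonneg _) hr
    simp only [Multiset.map_cons, Multiset.prod_cons, norm_mul]
    have h3 : ‖-(starRingEnd ℂ) z - r‖ * ‖(m.map (fun r => -(starRingEnd ℂ) z - r)).prod‖ <
        ‖z - r‖ * ‖(m.map (fun r => z - r)).prod‖ :=
      lt_of_le_of_lt (mul_le_mul_of_nonneg_left h1 (norm_nonneg _))
        (mul_lt_mul_of_pos_right hr h2)
    exact ⟨h3.le, mul_pos hr0 h2, fun _ => h3⟩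

/-- Hurwitz polynomials: `|H(z)| > |H(-z)|` in the right half plane -/
lemma hurwitz_lt {N : ℕ} {c : ℕ → ℝ} (hN : 0 < N) (hc : 0 < c N)
    (h : ∀ z : ℂ, 0 ≤ z.re → ev N c z ≠ 0) {z : ℂ} (hz : 0 < z.re) :
    ‖ev N c (-z)‖ < ‖ev N c z‖ := by
  obtain ⟨m, hcard, hprod, hroot⟩ := ev_factor hc.ne'
  have hm : ∀ r ∈ m, r.re < 0 := by
    intro r hr
    by_contra hcon
    exact h r (not_lt.1 hcon) (hroot r hr)
  have hm0 : m ≠ 0 := by
    rintro rfl
    simp at hcard
    omega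
  have h1 := (prod_lt hm hz).2.2 hm0
  have h2 : ‖ev N c (-z)‖ = ‖ev N c (-(starRingEnd ℂ) z)‖ := by
    have : -(starRingEnd ℂ) z = (starRingEnd ℂ) (-z) := by simp
    rw [this, ev_conj, RCLike.norm_conj]
  rw [h2, hprod, hprod, norm_mul, norm_mul]
  refine mul_lt_mul_of_pos_left h1 ?_
  rw [norm_pos_iff]
  exact_mod_cast hc.ne'

lemma Hp_split (n : ℕ) (p q : ℕ → ℝ) (z : ℂ) :
    Hp n p q z = ev n p (z ^ 2) + z * ∑ k ∈ range n, (q k : ℂ) * (z ^ 2) ^ k := by
  unfold Hp ev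
  rw [Finset.mul_sum]
  congr 1
  · refine Finset.sum_congr rfl (fun k _ => ?_)
    rw [pow_mul]
  · refine Finset.sum_congr rfl (fun k _ => ?_)
    rw [pow_succ, pow_mul]
    ring

/-- **HB2.** -/
theorem hb_pf {n : ℕ} {p q : ℕ → ℝ} (hp : ∀ k ≤ n, 0 < p k)
    (h : ∀ z : ℂ, 0 ≤ z.re → Hp n p q z ≠ 0) : PF n p := by
  refine ⟨hp, fun w hw h0 => ?_⟩
  rcases Nat.eq_zero_or_pos n with hn | hn
  · subst hn
    unfold ev at h0
    simp at h0
    exact (hp 0 le_rfl).ne' h0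
  -- a square root of `w` with positive real part
  obtain ⟨z, hz2, hz⟩ : ∃ z : ℂ, z ^ 2 = w ∧ 0 < z.re := by
    obtain ⟨z, hz'⟩ := IsAlgClosed.exists_pow_nat_eq w (n := 2) (by norm_num)
    have hz : w = z ^ 2 := hz'.symm
    have him : w.im = 2 * z.re * z.im := by
      rw [hz, pow_two, Complex.mul_im]
      ring
    have hre : z.re ≠ 0 := by
      intro h
      rw [h] at him
      simp at him
      linarith
    rcases lt_or_gt_of_ne hre with h | h
    · exact ⟨-z, by rw [neg_sq, hz], by rw [Complex.neg_re]; linarith⟩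
    · exact ⟨z, hz.symm, h⟩
  have h1 := hurwitz_lt (N := 2 * n) (c := cf p q) (by omega)
    (by rw [cf_even]; exact hp n le_rfl) (fun z hz => by rw [← Hp_eq_ev]; exact h z hz) hz
  rw [← Hp_eq_ev, ← Hp_eq_ev, Hp_split, Hp_split, neg_sq, hz2, h0] at h1
  simp at h1

/-- **HB3.** zeros on the imaginary axis are common zeros -/
theorem hb_axis {n : ℕ} {p q : ℕ → ℝ} (h0 : p 0 ≠ 0)
    (h : ∀ X : ℝ, 0 < X → ∑ k ∈ range (n + 1), (-X) ^ k * p k = 0 →
      ∑ k ∈ range n, (-X) ^ k * q k = 0 → False) :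
    ∀ z : ℂ, z.re = 0 → Hp n p q z ≠ 0 := by
  intro z hz hH
  have hzI : z = (z.im : ℂ) * Complex.I := by
    apply Complex.ext
    · simp [hz]
    · simp
  set y := z.im with hy
  have hz2 : z ^ 2 = ((-(y ^ 2) : ℝ) : ℂ) := by
    rw [hzI, mul_pow, Complex.I_sq]
    push_cast
    ring
  rw [Hp_split, hz2] at hH
  have h1 : ev n p ((-(y ^ 2) : ℝ) : ℂ) =
      ((∑ k ∈ range (n + 1), (-(y ^ 2)) ^ k * p k : ℝ) : ℂ) := by
    unfold ev
    push_cast
    exact Finset.sum_congr rfl (fun k _ => by ring)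
  have h2 : ∑ k ∈ range n, (q k : ℂ) * ((-(y ^ 2) : ℝ) : ℂ) ^ k =
      ((∑ k ∈ range n, (-(y ^ 2)) ^ k * q k : ℝ) : ℂ) := by
    push_cast
    exact Finset.sum_congr rfl (fun k _ => by ring)
  rw [h1, h2, hzI] at hH
  set A := ∑ k ∈ range (n + 1), (-(y ^ 2)) ^ k * p k with hA
  set B := ∑ k ∈ range n, (-(y ^ 2)) ^ k * q k with hB
  have hre := congrArg Complex.re hH
  have him := congrArg Complex.im hH
  simp at hre him
  have hy0 : y ≠ 0 := by
    intro hy0
    have : A = p 0 := by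
      rw [hA, hy0, sum_range_succ']
      simp
    exact h0 (this ▸ hre)
  have hB0 : B = 0 := by
    rcases him with h | h
    · exact absurd h hy0
    · exact h
  exact h (y ^ 2) (by positivity) hre hB0

end Pool.Agent.JR
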