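import Pool.Agent.RL2.RepData
import Pool.Agent.H62LR.Basic
import Pool.Agent.JR.HB

/-!
MP_3f3e0f_an, JR: stability of `∑ p_j z^{2j} + ∑ q_k z^{2k+1}` from positive definite even and odd
Bezoutian blocks, and the base case `p_k = a_k^2`, `q_k = a_k a_{k+1}`.
-/

set_option linter.unusedSectionVars false

namespace JR

open Finset Complex Pool.Agent.H62LR Pool.Agent.JR

/-- bilinear form of a block -/
noncomputable def Bl (n : ℕ) (x : ℕ → ℕ → ℝ) (u v : ℂ) : ℂ :=
  ∑ j ∈ range n, ∑ k ∈ range n, u ^ j * v ^ k * (x j k : ℂ)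

lemma Bl_symm {n : ℕ} {x : ℕ → ℕ → ℝ} (hx : ∀ j k, x j k = x k j) (u v : ℂ) :
    Bl n x u v = Bl n x v u := by
  unfold Bl
  rw [sum_comm]
  refine sum_congr rfl fun j _ => sum_congr rfl fun k _ => ?_
  rw [hx k j]
  ring

lemma Bl_prod {n : ℕ} {p q : ℕ → ℝ} {x y : ℕ → ℕ → ℝ} (symm : ∀ j k, x j k = x k j)
    (top : ∀ k, x k n = 0) (comp0 : ∀ k, k < n → x k 0 = q k * p 0)
    (comp : ∀ i k, i < n → k < n → x k (i + 1) + y i k = q k * p (i + 1)) (u v : ℂ) :
    (∑ j ∈ range (n + 1), (p j : ℂ) * u ^ j) * (∑ k ∈ range n, (q k : ℂ) * v ^ k)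
      = Bl n x u v + u * Bl n y u v := by
  have h1 : (∑ j ∈ range (n + 1), (p j : ℂ) * u ^ j) * (∑ k ∈ range n, (q k : ℂ) * v ^ k)
      = ∑ k ∈ range n, ∑ j ∈ range (n + 1), u ^ j * v ^ k * ((q k * p j : ℝ) : ℂ) := by
    rw [sum_mul_sum, sum_comm]
    refine sum_congr rfl fun k _ => sum_congr rfl fun j _ => ?_
    push_cast
    ring
  have h2 : ∀ k ∈ range n, ∑ j ∈ range (n + 1), u ^ j * v ^ k * ((q k * p j : ℝ) : ℂ)
      = ∑ j ∈ range n, u ^ j * v ^ k * ((x k j : ℝ) : ℂ)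
        + ∑ i ∈ range n, u ^ (i + 1) * v ^ k * ((y i k : ℝ) : ℂ) := by
    intro k hk
    rw [mem_range] at hk
    have h3 : ∑ j ∈ range n, u ^ j * v ^ k * ((x k j : ℝ) : ℂ)
        = ∑ j ∈ range (n + 1), u ^ j * v ^ k * ((x k j : ℝ) : ℂ) := by
      rw [sum_range_succ, top]
      simp
    rw [h3, sum_range_succ', sum_range_succ' (fun j => u ^ j * v ^ k * ((x k j : ℝ) : ℂ)),
      add_right_comm, ← sum_add_distrib]
    congr 1
    · refine sum_congr rfl fun i hi => ?_
      rw [mem_range] at hi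
      rw [← mul_add, ← Complex.ofReal_add, comp i k hi hk]
    · rw [comp0 k hk]
  rw [h1, sum_congr rfl h2, sum_add_distrib]
  unfold Bl
  congr 1
  · rw [sum_comm]
    refine sum_congr rfl fun j _ => sum_congr rfl fun k _ => ?_
    rw [symm]
  · rw [sum_comm, mul_sum]
    refine sum_congr rfl fun j _ => ?_
    rw [mul_sum]
    refine sum_congr rfl fun k _ => ?_
    ring

lemma Bl_fin (n : ℕ) (x : ℕ → ℕ → ℝ) (u : ℂ) :
    Bl n x u ((starRingEnd ℂ) u) = ∑ j : Fin n, ∑ k : Fin n,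
      (fun j : Fin n => u ^ (j : ℕ)) j * (starRingEnd ℂ) ((fun j : Fin n => u ^ (j : ℕ)) k) *
        ((x j k : ℝ) : ℂ) := by
  unfold Bl
  rw [sum_range]
  refine sum_congr rfl fun j _ => ?_
  rw [sum_range]
  refine sum_congr rfl fun k _ => ?_
  simp

lemma pow_vec_ne {n : ℕ} (hn : 1 ≤ n) (u : ℂ) : (fun j : Fin n => u ^ (j : ℕ)) ≠ 0 := by
  intro h
  have := congrFun h ⟨0, by omega⟩
  simp at this

/-- positive blocks imply stability -/
theorem hurwitz_of_blocks {n : ℕ} {p q : ℕ → ℝ} {x y : ℕ → ℕ → ℝ} (hp0 : p 0 ≠ 0)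
    (symm : ∀ j k, x j k = x k j) (symm' : ∀ j k, y j k = y k j)
    (top : ∀ k, x k n = 0) (comp0 : ∀ k, k < n → x k 0 = q k * p 0)
    (comp : ∀ i k, i < n → k < n → x k (i + 1) + y i k = q k * p (i + 1))
    (pd : ∀ c : Fin n → ℝ, c ≠ 0 → 0 < ∑ j : Fin n, ∑ k : Fin n, c j * c k * x j k)
    (pd' : ∀ c : Fin n → ℝ, c ≠ 0 → 0 < ∑ j : Fin n, ∑ k : Fin n, c j * c k * y j k)
    {z : ℂ} (hz : 0 ≤ z.re) : Hp n p q z ≠ 0 := by
  have hp0' : (p 0 : ℂ) ≠ 0 := by exact_mod_cast hp0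
  rcases Nat.eq_zero_or_pos n with hn | hn
  · subst hn
    simpa [Hp] using hp0
  intro h0
  rw [Hp_split] at h0
  set u : ℂ := z ^ 2 with hu
  set P : ℂ := ∑ j ∈ range (n + 1), (p j : ℂ) * u ^ j with hP
  set Q : ℂ := ∑ k ∈ range n, (q k : ℂ) * u ^ k with hQ
  have hPQ : P = -(z * Q) := by
    have : P + z * Q = 0 := h0
    linear_combination this
  have hprod := Bl_prod symm top comp0 comp u ((starRingEnd ℂ) u)
  have hcQ : ∑ k ∈ range n, (q k : ℂ) * ((starRingEnd ℂ) u) ^ k = (starRingEnd ℂ) Q := by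
    rw [hQ, map_sum]
    refine sum_congr rfl fun k _ => ?_
    simp
  rw [hcQ] at hprod
  -- positivity of the blocks
  have hX := RFS53.pd_of_real (B := fun j k : Fin n => x j k) pd _ (pow_vec_ne hn u)
  have hXi := RFS53.herm_im (B := fun j k : Fin n => x j k) (fun j k => symm _ _)
    (fun j : Fin n => u ^ (j : ℕ))
  have hY := RFS53.pd_of_real (B := fun j k : Fin n => y j k) pd' _ (pow_vec_ne hn u)
  have hYi := RFS53.herm_im (B := fun j k : Fin n => y j k) (fun j k => symm' _ _)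
    (fun j : Fin n => u ^ (j : ℕ))
  rw [← Bl_fin n x u] at hX hXi
  rw [← Bl_fin n y u] at hY hYi
  set BX := Bl n x u ((starRingEnd ℂ) u) with hBX
  set BY := Bl n y u ((starRingEnd ℂ) u) with hBY
  have hXr : BX = ((BX.re : ℝ) : ℂ) := Complex.ext (by simp) (by simpa using hXi)
  have hYr : BY = ((BY.re : ℝ) : ℂ) := Complex.ext (by simp) (by simpa using hYi)
  have hkey : BX + z ^ 2 * BY + z * (normSq Q : ℂ) = 0 := by
    rw [Complex.normSq_eq_conj_mul_self]
    have h1 : P * (starRingEnd ℂ) Q = BX + u * BY := hprod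
    rw [hPQ] at h1
    rw [hu] at h1
    linear_combination -h1
  have hkey2 : (BX.re : ℝ) * z.re + (normSq z) * z.re * BY.re + normSq z * normSq Q = 0 := by
    have h1 : (starRingEnd ℂ) z * (BX + z ^ 2 * BY + z * (normSq Q : ℂ)) = 0 := by
      rw [hkey, mul_zero]
    have h2 : (starRingEnd ℂ) z * (BX + z ^ 2 * BY + z * (normSq Q : ℂ))
        = (starRingEnd ℂ) z * ((BX.re : ℝ) : ℂ) + ((normSq z : ℝ) : ℂ) * z * ((BY.re : ℝ) : ℂ)
          + ((normSq z : ℝ) : ℂ) * (normSq Q : ℂ) := by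
      rw [Complex.normSq_eq_conj_mul_self (z := z), ← hXr, ← hYr]
      ring
    rw [h2] at h1
    have h3 := congrArg Complex.re h1
    simp only [Complex.add_re, Complex.mul_re, Complex.conj_re, Complex.conj_im, Complex.ofReal_re,
      Complex.ofReal_im, mul_zero, sub_zero, Complex.zero_re, Complex.mul_im, zero_mul, add_zero] at h3
    linarith
  have hzn : 0 ≤ normSq z := normSq_nonneg z
  have hQn : 0 ≤ normSq Q := normSq_nonneg Q
  rcases eq_or_lt_of_le hz with hz0 | hz0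
  · -- imaginary axis
    rw [← hz0] at hkey2
    have h1 : normSq z * normSq Q = 0 := by linarith
    rcases mul_eq_zero.1 h1 with h2 | h2
    · rw [Complex.normSq_eq_zero] at h2
      have hu0 : u = 0 := by rw [hu, h2]; ring
      rw [hu0, h2] at h0
      simp [ev, sum_range_succ'] at h0
      exact hp0 h0
    · rw [Complex.normSq_eq_zero] at h2
      have hP0 : P = 0 := by rw [hPQ, h2]; ring
      -- `Y(w,u) = 0` for `w ≠ u`
      have hYw : ∀ w : ℂ, w ≠ u → Bl n y w u = 0 := by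
        intro w hw
        have e1 := Bl_prod symm top comp0 comp w u
        have e2 := Bl_prod symm top comp0 comp u w
        rw [← hQ, h2, mul_zero] at e1
        rw [← hP, hP0, zero_mul, Bl_symm symm u w, Bl_symm symm' u w] at e2
        have e3 : (w - u) * Bl n y w u = 0 := by linear_combination e2 - e1
        rcases mul_eq_zero.1 e3 with h | h
        · exact absurd (sub_eq_zero.1 h) hw
        · exact h
      have hcont : Continuous (fun w : ℂ => Bl n y w u) := by
        unfold Bl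
        fun_prop
      have hlim : Filter.Tendsto (fun w : ℂ => Bl n y w u) (nhdsWithin u {u}ᶜ) (nhds (Bl n y u u)) :=
        (hcont.tendsto u).mono_left nhdsWithin_le_nhds
      have hlim0 : Filter.Tendsto (fun w : ℂ => Bl n y w u) (nhdsWithin u {u}ᶜ) (nhds 0) := by
        refine tendsto_const_nhds.congr' ?_
        filter_upwards [self_mem_nhdsWithin] with w hw
        exact (hYw w hw).symm
      have hYu : Bl n y u u = 0 := tendsto_nhds_unique hlim hlim0
      have hur : (starRingEnd ℂ) u = u := by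
        rw [Complex.conj_eq_iff_im, hu, sq, Complex.mul_im, ← hz0]
        ring
      rw [hBY, hur, hYu] at hY
      simp at hY
  · have h1 : 0 < BX.re * z.re := mul_pos hX hz0
    have h2 : 0 ≤ normSq z * z.re * BY.re := by positivity
    have h3 : 0 ≤ normSq z * normSq Q := by positivity
    linarith

variable {α : Type*} [DecidableEq α]

/-- stability for two chains: `p_k = a_k f_k`, `q_k = a_{k+1} f_k` -/
theorem hurwitz_pair {β : Type*} [DecidableEq β] {w : α → ℝ} (hw : ∀ a, 0 < w a) (V : Finset α)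
    {u : β → ℝ} (hu : ∀ b, 0 < u b) {U : Finset β} (hU : U.card = V.card) {z : ℂ}
    (hz : 0 ≤ z.re) :
    Hp V.card (fun k => RL1.esy w V k * RL1.esy u U k)
      (fun k => RL1.esy w V (k + 1) * RL1.esy u U k) z ≠ 0 := by
  refine hurwitz_of_blocks (x := RL2.E1 (RL2.mom (RL2.hx u U)) w V) (y := RL2.E2 w V u U)
    ?_ (fun j k => RL2.E1_symm w V u U j k) (fun j k => RL2.E2_symm w V u U j k)
    (fun k => RL2.E1_top u U k) (fun k _ => RL2.E1_comp0 w V u U k)
    (fun i k _ _ => RL2.E1_comp w V u U i k)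
    (fun c hc => RL2.E1_pd w hw V u hu U hU.ge c hc)
    (fun c hc => RL2.E2_pd w hw V u hu U hU c hc) hz
  have h1 := RL2.esy_pos hw (V := V) (p := 0) (Nat.zero_le _)
  have h2 := RL2.esy_pos hu (V := U) (p := 0) (Nat.zero_le _)
  positivity

/-- the base case of the homotopy: exponent `2` -/
theorem hurwitz_two {w : α → ℝ} (hw : ∀ a, 0 < w a) (V : Finset α) {z : ℂ} (hz : 0 ≤ z.re) :
    Hp V.card (fun k => RL1.esy w V k * RL1.esy w V k)
      (fun k => RL1.esy w V (k + 1) * RL1.esy w V k) z ≠ 0 := by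
  refine hurwitz_of_blocks (x := RL2.E1 (RL2.mom (RL2.hx w V)) w V) (y := RL2.E2 w V w V)
    ?_ (fun j k => RL2.E1_symm w V w V j k) (fun j k => RL2.E2_symm w V w V j k)
    (fun k => RL2.E1_top w V k) (fun k _ => RL2.E1_comp0 w V w V k)
    (fun i k _ _ => RL2.E1_comp w V w V i k)
    (fun c hc => RL2.E1_pd w hw V w hw V le_rfl c hc)
    (fun c hc => RL2.E2_pd w hw V w hw V rfl c hc) hz
  have := RL2.esy_pos hw (V := V) (p := 0) (Nat.zero_le _)
  positivity

end JR
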