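import Pool.Agent.JR.KInt

/-!
MP_3f3e0f_an, JR (board 1467): the exact identity
`2 D = φ_0^2 + ∑ K c c' + X ∑ w w' [T_j^θ F(j,k) + T_k^θ F(k,j)]`, `D = φ_0^2 + X φ_1 φ_{r-1}`.
Everything here is algebra, for an arbitrary sequence `a` with `a_k > 0` for `k ≤ n`, `a_{n+1} = 0`.
-/

namespace JR

open Finset

/-- `T_k = a_k / a_{k+1}` -/
noncomputable def Tq (a : ℕ → ℝ) (k : ℕ) : ℝ := a k / a (k + 1)

/-- the normalised kernel `K(j,k)` -/
noncomputable def Kn (a : ℕ → ℝ) (j k : ℕ) : ℝ := Kc a j k / (a j ^ 2 * a k ^ 2)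

/-- the kernel `F(j,k) = (T_k / 2 T_j) [1 + (j - k) K(j+1,k)]` -/
noncomputable def Fk (a : ℕ → ℝ) (j k : ℕ) : ℝ :=
  Tq a k / (2 * Tq a j) * (1 + ((j : ℝ) - k) * Kn a (j + 1) k)

/-- the kernel `J(j,k) = (1/2T_j) [1 + (j-k) K(j+1,k)] + (1/2T_k) [1 + (k-j) K(j,k+1)]` -/
noncomputable def Jk (a : ℕ → ℝ) (j k : ℕ) : ℝ :=
  1 / (2 * Tq a j) * (1 + ((j : ℝ) - k) * Kn a (j + 1) k) +
    1 / (2 * Tq a k) * (1 + ((k : ℝ) - j) * Kn a j (k + 1))

theorem Kn_symm (a : ℕ → ℝ) (j k : ℕ) : Kn a j k = Kn a k j := by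
  unfold Kn
  rw [Kc_symm, mul_comm (a j ^ 2)]

/-- `F + F^T = 1` -/
theorem Fk_add {a : ℕ → ℝ} {j k : ℕ} (h1 : a j ≠ 0) (h2 : a (j + 1) ≠ 0) (h3 : a k ≠ 0)
    (h4 : a (k + 1) ≠ 0) : Fk a j k + Fk a k j = 1 := by
  by_cases h : j = k
  · subst h
    unfold Fk Tq
    have h5 : a j / a (j + 1) ≠ 0 := div_ne_zero h1 h2
    field_simp
    ring
  · have hr := Kc_rec a h
    have hjk : (j : ℝ) - k ≠ 0 := sub_ne_zero.2 (by exact_mod_cast h)
    rw [eq_div_iff hjk] at hr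
    have hs : Kc a (k + 1) j = Kc a j (k + 1) := Kc_symm a _ _
    unfold Fk Tq Kn
    rw [hs]
    field_simp
    linear_combination (-1) * hr

/-- `T_j F(j,k) + T_k F(k,j) = T_j T_k J(j,k)` -/
theorem TF_add_TF {a : ℕ → ℝ} {j k : ℕ} (h1 : a j ≠ 0) (h2 : a (j + 1) ≠ 0) (h3 : a k ≠ 0)
    (h4 : a (k + 1) ≠ 0) :
    Tq a j * Fk a j k + Tq a k * Fk a k j = Tq a j * Tq a k * Jk a j k := by
  have hj : Tq a j ≠ 0 := div_ne_zero h1 h2
  have hk : Tq a k ≠ 0 := div_ne_zero h3 h4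
  unfold Fk Jk
  rw [Kn_symm a (k + 1) j]
  field_simp

/-- the last row of the kernel, for `a_{n+1} = 0` -/
theorem Kc_last {a : ℕ → ℝ} {n k : ℕ} (hk : k ≤ n) (hz : ∀ m, n < m → a m = 0) :
    Kc a n k = (a n * a k) ^ 2 / ((n : ℝ) - k + 1) := by
  unfold Kc KS
  rw [if_pos hk, sum_range_succ']
  rw [sum_eq_zero]
  · simp only [Nat.sub_zero, add_zero, hz (n + 1) (by omega), zero_mul, sub_zero, Nat.cast_zero,
      mul_zero, zero_add]
  · intro i _
    rw [hz (n + (i + 1)) (by omega), hz (n + (i + 1) + 1) (by omega)]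
    simp

theorem Kc_first (a : ℕ → ℝ) (j : ℕ) : Kc a j 0 = (a j * a 0) ^ 2 / ((j : ℝ) + 1) := by
  unfold Kc KS
  rw [if_pos (Nat.zero_le j)]
  simp

theorem Kn_last {a : ℕ → ℝ} {n k : ℕ} (hk : k ≤ n) (ha : ∀ m, m ≤ n → 0 < a m)
    (hz : ∀ m, n < m → a m = 0) : ((n : ℝ) - k + 1) * Kn a n k = 1 := by
  unfold Kn
  rw [Kc_last hk hz]
  have h1 := (ha n le_rfl).ne'
  have h2 := (ha k hk).ne'
  have h3 : (k : ℝ) ≤ n := by exact_mod_cast hk
  have h4 : (n : ℝ) - k + 1 ≠ 0 := by linarith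
  field_simp

theorem Kn_first {a : ℕ → ℝ} {j : ℕ} (hj : a j ≠ 0) (h0 : a 0 ≠ 0) :
    ((j : ℝ) + 1) * Kn a j 0 = 1 := by
  unfold Kn
  rw [Kc_first]
  have h4 : (j : ℝ) + 1 ≠ 0 := by positivity
  field_simp

/-- `(T_{k-1} / T_j) F(k-1, j) = (1/2) (1 + (k-1-j) K(k,j))` -/
theorem shift_F {a : ℕ → ℝ} {j k : ℕ} (h1 : a j ≠ 0) (h2 : a (j + 1) ≠ 0) (h3 : a k ≠ 0)
    (h4 : a (k + 1) ≠ 0) :
    Tq a k * Fk a k j = Tq a j * (1 / 2 * (1 + ((k : ℝ) - j) * Kn a (k + 1) j)) := by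
  have hj : Tq a j ≠ 0 := div_ne_zero h1 h2
  have hk : Tq a k ≠ 0 := div_ne_zero h3 h4
  unfold Fk
  field_simp

/-- antisymmetric kernels have vanishing form -/
theorem form_antisymm (N : ℕ) (c : ℕ → ℝ) (M : ℕ → ℕ → ℝ) (hM : ∀ j k, M j k = -M k j) :
    ∑ j ∈ range N, ∑ k ∈ range N, c j * c k * M j k = 0 := by
  have h : ∑ j ∈ range N, ∑ k ∈ range N, c j * c k * M j k =
      -∑ j ∈ range N, ∑ k ∈ range N, c j * c k * M j k := by
    conv_lhs => rw [sum_comm]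
    rw [← sum_neg_distrib]
    refine sum_congr rfl fun j _ => ?_
    rw [← sum_neg_distrib]
    refine sum_congr rfl fun k _ => ?_
    rw [hM k j]
    ring
  linarith

/-- **The exact identity** (board 1467, (1)). -/
theorem identity {a : ℕ → ℝ} {n : ℕ} (ha : ∀ m, m ≤ n → 0 < a m) (hz : ∀ m, n < m → a m = 0)
    {X : ℝ} {c w P : ℕ → ℝ} (hc : ∀ j, j < n → c j = Tq a j * P j * w j)
    (hw : ∀ k, k < n → Tq a k * c (k + 1) = -X * w k) :
    2 * ((∑ k ∈ range (n + 1), c k) ^ 2 +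
        X * (∑ k ∈ range n, P k * w k) * ∑ k ∈ range n, w k) =
      (∑ k ∈ range (n + 1), c k) ^ 2 +
        ∑ j ∈ range (n + 1), ∑ k ∈ range (n + 1), c j * c k * Kn a j k +
        2 * X * ∑ j ∈ range n, ∑ k ∈ range n, w j * w k * (P j * Fk a j k) := by
  have hT : ∀ k, k < n → Tq a k ≠ 0 := fun k hk =>
    div_ne_zero (ha k (by omega)).ne' (ha (k + 1) (by omega)).ne'
  -- `X φ_1 φ_{r-1}` is split with `F + F^T = 1`
  have e1 : X * (∑ k ∈ range n, P k * w k) * ∑ k ∈ range n, w k =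
      X * ∑ j ∈ range n, ∑ k ∈ range n, w j * w k * (P j * Fk a j k) +
        ∑ j ∈ range n, ∑ k ∈ range n, X * (P j * w j * w k * Fk a k j) := by
    rw [mul_assoc, sum_mul_sum, mul_sum, mul_sum, ← sum_add_distrib]
    refine sum_congr rfl fun j hj => ?_
    rw [mul_sum, mul_sum, ← sum_add_distrib]
    refine sum_congr rfl fun k hk => ?_
    rw [mem_range] at hj hk
    have h := Fk_add (a := a) (j := j) (k := k) (ha j (by omega)).ne' (ha (j + 1) (by omega)).ne'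
      (ha k (by omega)).ne' (ha (k + 1) (by omega)).ne'
    linear_combination (-X * (P j * w j * w k)) * h
  -- the second part
  have e2 : ∀ j, j < n → ∀ k, k < n → X * (P j * w j * w k * Fk a k j) =
      -(1 / 2) * (c j * c (k + 1) * (1 + ((k : ℝ) - j) * Kn a (k + 1) j)) := by
    intro j hj k hk
    have h1 := shift_F (a := a) (j := j) (k := k) (ha j (by omega)).ne' (ha (j + 1) (by omega)).ne'
      (ha k (by omega)).ne' (ha (k + 1) (by omega)).ne'
    have h2 := hc j hj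
    have h3 := hw k hk
    have h4 := hT j hj
    have h5 := hT k hk
    have h6 : c j = Tq a j * (P j * w j) := by rw [h2]; ring
    have h7 : X * w k = -(Tq a k * c (k + 1)) := by linarith
    calc X * (P j * w j * w k * Fk a k j) = P j * w j * (X * w k) * Fk a k j := by ring
      _ = -(P j * w j * c (k + 1) * (Tq a k * Fk a k j)) := by rw [h7]; ring
      _ = -(1 / 2) * (Tq a j * (P j * w j) * c (k + 1) *
          (1 + ((k : ℝ) - j) * Kn a (k + 1) j)) := by rw [h1]; ring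
      _ = _ := by rw [← h6]
  have e3 : ∑ j ∈ range n, ∑ k ∈ range n, X * (P j * w j * w k * Fk a k j) =
      -(1 / 2) * ∑ j ∈ range (n + 1), ∑ k ∈ range (n + 1),
        c j * c k * (1 + ((k : ℝ) - 1 - j) * Kn a k j) := by
    rw [sum_range_succ (n := n)]
    have hlast : ∑ k ∈ range (n + 1), c n * c k * (1 + ((k : ℝ) - 1 - n) * Kn a k n) = 0 := by
      refine sum_eq_zero fun k hk => ?_
      rw [mem_range] at hk
      have h := Kn_last (k := k) (by omega) ha hz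
      rw [Kn_symm] at h
      have : 1 + ((k : ℝ) - 1 - n) * Kn a k n = 0 := by linear_combination (-1) * h
      rw [this, mul_zero]
    rw [hlast, add_zero, mul_sum]
    refine sum_congr rfl fun j hj => ?_
    rw [mem_range] at hj
    rw [sum_range_succ' _ n]
    have hfirst : c j * c 0 * (1 + (((0 : ℕ) : ℝ) - 1 - j) * Kn a 0 j) = 0 := by
      have h := Kn_first (ha j (by omega)).ne' (ha 0 (by omega)).ne'
      rw [Kn_symm] at h
      have : 1 + (((0 : ℕ) : ℝ) - 1 - j) * Kn a 0 j = 0 := by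
        push_cast
        linear_combination (-1) * h
      rw [this, mul_zero]
    rw [hfirst, add_zero, mul_sum]
    refine sum_congr rfl fun k hk => ?_
    rw [mem_range] at hk
    rw [e2 j hj k hk]
    push_cast
    ring
  have e4 : ∑ j ∈ range (n + 1), ∑ k ∈ range (n + 1),
      c j * c k * (1 + ((k : ℝ) - 1 - j) * Kn a k j) =
      (∑ k ∈ range (n + 1), c k) ^ 2 -
        ∑ j ∈ range (n + 1), ∑ k ∈ range (n + 1), c j * c k * Kn a j k +
        ∑ j ∈ range (n + 1), ∑ k ∈ range (n + 1), c j * c k * (((k : ℝ) - j) * Kn a j k) := by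
    rw [pow_two, sum_mul_sum, ← sum_sub_distrib, ← sum_add_distrib]
    refine sum_congr rfl fun j _ => ?_
    rw [← sum_sub_distrib, ← sum_add_distrib]
    refine sum_congr rfl fun k _ => ?_
    rw [Kn_symm a k j]
    ring
  have e5 := form_antisymm (n + 1) c (fun j k => ((k : ℝ) - j) * Kn a j k) (fun j k => by
    beta_reduce
    rw [Kn_symm a k j]; ring)
  rw [e5, add_zero] at e4
  rw [e1, e3, e4]
  ring

end JR
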