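import Pool.Agent.RL2.Jmap

/-!
MP_3f3e0f_an, JR (board 1467): the kernel `K(j,k) = ∫ 2x hh(j,k)^2 dx`: positivity and closed form.
`hx w V j k x = [s^j t^k] ∏ (1 + v x (s + t) + v^2 s t)`, `esy w V j = a_j`.
-/

namespace JR

open Finset RL1 RL2

variable {α : Type*} [DecidableEq α]

/-- `a_j^2 a_k^2 K(j,k)` as an integral -/
noncomputable def KI (w : α → ℝ) (V : Finset α) (j k : ℕ) : ℝ := ∫ x in (0 : ℝ)..1, 2 * x * hx w V j k x ^ 2

/-- the sum for `k ≤ j` -/
noncomputable def KS (a : ℕ → ℝ) (j k : ℕ) : ℝ :=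
  ∑ i ∈ range (k + 1), (a (j + i) * a (k - i) - a (j + i + 1) * (if i < k then a (k - i - 1) else 0)) ^ 2
    / ((j : ℝ) - k + 2 * i + 1)

/-- closed form of `a_j^2 a_k^2 K(j,k)`, any sequence -/
noncomputable def Kc (a : ℕ → ℝ) (j k : ℕ) : ℝ := if k ≤ j then KS a j k else KS a k j

theorem Kc_symm (a : ℕ → ℝ) (j k : ℕ) : Kc a j k = Kc a k j := by
  unfold Kc
  rcases lt_trichotomy j k with h | h | h
  · rw [if_neg (by omega), if_pos (by omega)]
  · subst h; rfl
  · rw [if_pos (by omega), if_neg (by omega)]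

theorem KS_rec (a : ℕ → ℝ) (j k : ℕ) :
    KS a j (k + 1) = KS a (j + 1) k + (a j * a (k + 1) - a (j + 1) * a k) ^ 2 / ((j : ℝ) - k) := by
  unfold KS
  rw [sum_range_succ' (n := k + 1)]
  congr 1
  · refine sum_congr rfl fun i hi => ?_
    rw [mem_range] at hi
    have e1 : k + 1 - (i + 1) = k - i := by omega
    have e3 : j + (i + 1) = j + 1 + i := by omega
    rw [e1, e3]
    push_cast
    have e5 : (j : ℝ) - (k + 1) + 2 * (i + 1) + 1 = (j : ℝ) + 1 - k + 2 * i + 1 := by ring
    rw [e5]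
    by_cases h : i < k
    · rw [if_pos h, if_pos (show i + 1 < k + 1 by omega)]
    · rw [if_neg h, if_neg (show ¬ (i + 1 < k + 1) by omega)]
  · simp only [add_zero, Nat.sub_zero, Nat.zero_lt_succ, if_true, Nat.cast_zero, mul_zero, Nat.add_sub_cancel]
    push_cast
    have e5 : (j : ℝ) - (k + 1) + 1 = (j : ℝ) - k := by ring
    rw [e5]

/-- the recursion of the closed form -/
theorem Kc_rec (a : ℕ → ℝ) {j k : ℕ} (h : j ≠ k) :
    Kc a j (k + 1) - Kc a (j + 1) k = (a j * a (k + 1) - a (j + 1) * a k) ^ 2 / ((j : ℝ) - k) := by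
  rcases lt_or_gt_of_ne h with h | h
  · unfold Kc
    rw [if_neg (by omega)]
    have h1 : KS a (k + 1) j = KS a k (j + 1) - (a k * a (j + 1) - a (k + 1) * a j) ^ 2 / ((k : ℝ) - j) := by
      rw [KS_rec]; ring
    rw [h1]
    have h2 : (if k ≤ j + 1 then KS a (j + 1) k else KS a k (j + 1)) = KS a k (j + 1) := by
      by_cases h3 : k ≤ j + 1
      · have : k = j + 1 := by omega
        subst this
        simp
      · rw [if_neg h3]
    rw [h2]
    have h4 : (k : ℝ) - j = -((j : ℝ) - k) := by ring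
    rw [h4, div_neg]
    ring
  · unfold Kc
    rw [if_pos (by omega), if_pos (by omega), KS_rec]
    ring

/-- relation between the neighbours -/
theorem hx_neigh (w : α → ℝ) (V : Finset α) (j k : ℕ) (x : ℝ) :
    x * hd w V (j + 1) k x + ((j : ℝ) + 1 - k) * hx w V (j + 1) k x
      = x * hd w V j (k + 1) x + ((k : ℝ) + 1 - j) * hx w V j (k + 1) x := by
  have f1 := two_gL w V (j + 1) k x
  have f2 := two_gL w V (k + 1) j x
  have f3 : gS w V (k + 1) j x = gS w V j (k + 1) x := gS_symm w V _ _ x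
  have f4 := gL_shift w V j k x
  have f5 := hx_symm w V (k + 1) j x
  rw [f3, f5, ← f4] at f2
  rw [hd_mul, hd_mul]
  push_cast at f1 f2
  linarith

theorem KI_rec_aux (w : α → ℝ) (V : Finset α) (j k : ℕ) :
    ((j : ℝ) - k) * (KI w V j (k + 1) - KI w V (j + 1) k)
      = (esy w V j * esy w V (k + 1) - esy w V (j + 1) * esy w V k) ^ 2 := by
  unfold KI
  have c1 := hx_cont w V j (k + 1)
  have c2 := hx_cont w V (j + 1) k
  rw [← intervalIntegral.integral_sub (Continuous.intervalIntegrable (by fun_prop) _ _)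
    (Continuous.intervalIntegrable (by fun_prop) _ _), ← intervalIntegral.integral_const_mul]
  have hder : ∀ x ∈ Set.uIcc (0 : ℝ) 1, HasDerivAt
      (fun x => (x * (hx w V j (k + 1) x - hx w V (j + 1) k x)) ^ 2)
      (((j : ℝ) - k) * (2 * x * hx w V j (k + 1) x ^ 2 - 2 * x * hx w V (j + 1) k x ^ 2)) x := by
    intro x _
    have h1 := ((hasDerivAt_id x).mul ((hx_deriv w V j (k + 1) x).sub (hx_deriv w V (j + 1) k x))).pow 2
    refine h1.congr_deriv ?_
    have e := hx_neigh w V j k x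
    simp only [id, Pi.mul_apply, Pi.sub_apply, Nat.cast_ofNat, Nat.add_one_sub_one, pow_one]
    linear_combination (-2) * x * (hx w V j (k + 1) x - hx w V (j + 1) k x) * e
  rw [intervalIntegral.integral_eq_sub_of_hasDerivAt hder (Continuous.intervalIntegrable (by fun_prop) _ _)]
  simp only [hx_one, one_mul, zero_mul]
  ring

theorem esy_zero (w : α → ℝ) (V : Finset α) : esy w V 0 = 1 := by
  simp [esy, wt]

theorem hx_k_zero (w : α → ℝ) (V : Finset α) (j : ℕ) (x : ℝ) : hx w V j 0 x = esy w V j * x ^ j := by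
  unfold hx esy
  rw [sum_mul]
  refine sum_congr rfl fun A hA => ?_
  rw [powersetCard_zero, sum_singleton]
  have h1 : symmDiff A ∅ = A := by
    rw [← Finset.bot_eq_empty, symmDiff_bot]
  rw [h1, (mem_powersetCard.1 hA).2]
  simp [wt]

theorem KI_zero (w : α → ℝ) (V : Finset α) (j : ℕ) : KI w V j 0 = esy w V j ^ 2 / ((j : ℝ) + 1) := by
  unfold KI
  have e : ∀ x : ℝ, 2 * x * hx w V j 0 x ^ 2 = esy w V j ^ 2 * 2 * x ^ (2 * j + 1) := by
    intro x
    rw [hx_k_zero]
    ring
  simp_rw [e]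
  rw [intervalIntegral.integral_const_mul, integral_pow]
  push_cast
  have h1 : (2 : ℝ) * j + 1 + 1 ≠ 0 := by positivity
  have h2 : (j : ℝ) + 1 ≠ 0 := by positivity
  simp only [one_pow, ne_eq, Nat.add_eq_zero_iff, one_ne_zero, and_false, not_false_eq_true, zero_pow, sub_zero]
  field_simp
  ring

theorem KI_symm (w : α → ℝ) (V : Finset α) (j k : ℕ) : KI w V j k = KI w V k j := by
  unfold KI
  simp_rw [hx_symm w V j k]

theorem KI_eq_KS (w : α → ℝ) (V : Finset α) : ∀ k j : ℕ, k ≤ j → KI w V j k = KS (esy w V) j k := by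
  intro k
  induction k with
  | zero =>
    intro j _
    rw [KI_zero, KS]
    simp [esy_zero]
  | succ k ih =>
    intro j hj
    rw [KS_rec, ← ih (j + 1) (by omega)]
    have h := KI_rec_aux w V j k
    have hjk : (j : ℝ) - k ≠ 0 := by
      have : (k : ℝ) + 1 ≤ j := by exact_mod_cast hj
      intro h0
      linarith
    rw [← h, mul_div_cancel_left₀ _ hjk]
    ring

/-- **closed form of the integral** -/
theorem KI_eq (w : α → ℝ) (V : Finset α) (j k : ℕ) : KI w V j k = Kc (esy w V) j k := by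
  unfold Kc
  by_cases h : k ≤ j
  · rw [if_pos h, KI_eq_KS w V k j h]
  · rw [if_neg h, KI_symm, KI_eq_KS w V j k (by omega)]

end JR
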