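import Pool.Agent.JR.Hur
import Pool.Agent.JR.HB
import Pool.Agent.JR.Closure
import Pool.Agent.RFS.Closure

/-!
MP_3f3e0f_an, JR: the path in the exponent from `2` to `3`, given the inequality `T00`.
-/

set_option linter.unusedSectionVars false

namespace JR

open Finset Pool.Agent.H62LR Pool.Agent.JR

variable {α : Type*} [DecidableEq α]

/-- `φ_0` and `φ_1` have no common positive zero, for the exponents `2 + θ`, `0 ≤ θ ≤ 1`
(`a = esy w V`) -/
def NoCommon (w : α → ℝ) (V : Finset α) : Prop :=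
  ∀ θ : ℝ, 0 ≤ θ → θ ≤ 1 → ∀ X : ℝ, 0 < X →
    ∑ k ∈ range (V.card + 1), (-X) ^ k * RL1.esy w V k ^ (2 + θ) = 0 →
    ∑ k ∈ range V.card, (-X) ^ k * RL1.esy w V k ^ (1 + θ) * RL1.esy w V (k + 1) = 0 → False

/-- `φ_0^2 + X φ_1 φ_{r-1} > 0`, for the exponents `r = 2 + θ`, `0 ≤ θ ≤ 1` (`a = esy w V`) -/
def T00 (w : α → ℝ) (V : Finset α) : Prop :=
  ∀ θ : ℝ, 0 ≤ θ → θ ≤ 1 → ∀ X : ℝ, 0 < X →
    0 < (∑ k ∈ range (V.card + 1), (-X) ^ k * RL1.esy w V k ^ (2 + θ)) ^ 2 +
      X * (∑ k ∈ range V.card, (-X) ^ k * RL1.esy w V k ^ (1 + θ) * RL1.esy w V (k + 1)) *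
        ∑ k ∈ range V.card, (-X) ^ k * RL1.esy w V k * RL1.esy w V (k + 1) ^ (1 + θ)

lemma T00.noCommon {w : α → ℝ} {V : Finset α} (h : T00 w V) : NoCommon w V := by
  intro θ h0 h1 X hX e0 e1
  have h2 := h θ h0 h1 X hX
  rw [e0, e1] at h2
  simp at h2

/-- **the path**: exponents in `[2,3]` -/
theorem pf_path {w : α → ℝ} (hw : ∀ a, 0 < w a) (V : Finset α) (h : NoCommon w V) {r : ℝ}
    (hr2 : 2 ≤ r) (hr3 : r ≤ 3) : PF V.card (fun k => RL1.esy w V k ^ r) := by
  set n := V.card with hn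
  have hpos : ∀ k ≤ n, 0 < RL1.esy w V k := fun k hk => RL2.esy_pos hw hk
  set p : ℝ → ℕ → ℝ := fun s k => RL1.esy w V k ^ s with hp
  set q : ℝ → ℕ → ℝ := fun s k => RL1.esy w V k ^ (s - 1) * RL1.esy w V (k + 1) with hq
  have hpath : ∀ s ∈ Set.Icc (2 : ℝ) 3, ∀ z : ℂ, 0 ≤ z.re → Hp n (p s) (q s) z ≠ 0 := by
    refine hb_path p q ?_ ?_ ?_ ?_ ?_
    · intro k hk
      exact (continuous_const.rpow continuous_id (fun s => Or.inl (hpos k hk).ne')).continuousOn
    · intro k hk
      refine (Continuous.mul ?_ continuous_const).continuousOn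
      exact continuous_const.rpow (continuous_id.sub continuous_const)
        (fun s => Or.inl (hpos k hk.le).ne')
    · intro s _
      exact Real.rpow_pos_of_pos (hpos n le_rfl) _
    · intro s hs
      refine hb_axis (Real.rpow_pos_of_pos (hpos 0 (Nat.zero_le _)) _).ne' ?_
      intro X hX e0 e1
      refine h (s - 2) (by linarith [hs.1]) (by linarith [hs.2]) X hX ?_ ?_
      · rw [← e0]
        refine sum_congr rfl fun k _ => ?_
        rw [hp]
        simp only
        congr 2
        ring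
      · rw [← e1]
        refine sum_congr rfl fun k _ => ?_
        rw [hq]
        simp only
        rw [mul_assoc]
        congr 3
        ring
    · intro z hz
      have h2 := hurwitz_two hw V hz
      have e : Hp n (p 2) (q 2) z = Hp n (fun k => RL1.esy w V k * RL1.esy w V k)
          (fun k => RL1.esy w V (k + 1) * RL1.esy w V k) z := by
        unfold Hp
        congr 1
        · refine sum_congr rfl fun k _ => ?_
          congr 2
          rw [hp]
          simp only
          rw [Real.rpow_two, sq]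
        · refine sum_congr rfl fun k _ => ?_
          congr 2
          rw [hq]
          simp only
          rw [show (2 : ℝ) - 1 = 1 by norm_num, Real.rpow_one, mul_comm]
      rw [e]
      exact h2
  exact hb_pf (p := p r) (q := q r) (fun k hk => Real.rpow_pos_of_pos (hpos k hk) _)
    (hpath r ⟨hr2, hr3⟩)

/-- the two versions of the elementary symmetric functions agree -/
lemma esy_eq (w : α → ℝ) (V : Finset α) (k : ℕ) : RFS53.esy w V k = RL1.esy w V k := rfl

/-- `Hp` with coefficients `a_k f_k`, `a_{k+1} f_k` is stable if `a` and `f` are PF -/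
theorem hurwitz_PF {n : ℕ} {a f : ℕ → ℝ} (ha : PF n a) (hf : PF n f) {z : ℂ} (hz : 0 ≤ z.re) :
    Hp n (fun k => a k * f k) (fun k => a (k + 1) * f k) z ≠ 0 := by
  obtain ⟨w, hw, haw⟩ := Pool.Agent.RFS.exists_esy ha
  obtain ⟨u, hu, hfu⟩ := Pool.Agent.RFS.exists_esy hf
  have h := hurwitz_pair hw (univ : Finset (Fin n)) hu (U := (univ : Finset (Fin n))) rfl hz
  rw [card_univ, Fintype.card_fin] at h
  have ha0 := ha.1 0 (Nat.zero_le _)
  have hf0 := hf.1 0 (Nat.zero_le _)
  have e : Hp n (fun k => a k * f k) (fun k => a (k + 1) * f k) z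
      = ((a 0 * f 0 : ℝ) : ℂ) * Hp n (fun k => RL1.esy w univ k * RL1.esy u univ k)
        (fun k => RL1.esy w univ (k + 1) * RL1.esy u univ k) z := by
    unfold Hp
    rw [mul_add, mul_sum, mul_sum]
    congr 1
    · refine sum_congr rfl fun k hk => ?_
      have hk' := mem_range.1 hk
      beta_reduce
      rw [haw k (by omega), hfu k (by omega), esy_eq, esy_eq]
      push_cast
      ring
    · refine sum_congr rfl fun k hk => ?_
      have hk' := mem_range.1 hk
      beta_reduce
      rw [haw (k + 1) (by omega), hfu k (by omega), esy_eq, esy_eq]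
      push_cast
      ring
  rw [e]
  refine mul_ne_zero ?_ h
  exact_mod_cast (mul_pos ha0 hf0).ne'

/-- no common zero of `∑ (-X)^k a_k^r` and `∑ (-X)^k a_k^{r-1} a_{k+1}` -/
def NoCom (n : ℕ) (a : ℕ → ℝ) (r : ℝ) : Prop :=
  ∀ X : ℝ, 0 < X → ∑ k ∈ range (n + 1), (-X) ^ k * a k ^ r = 0 →
    ∑ k ∈ range n, (-X) ^ k * (a k ^ (r - 1) * a (k + 1)) = 0 → False

/-- `a^s` PF gives stability for the exponent `s + 1` -/
theorem hurwitz_succ {n : ℕ} {a : ℕ → ℝ} (ha : PF n a) {s : ℝ} (hs : PF n (fun k => a k ^ s))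
    {z : ℂ} (hz : 0 ≤ z.re) :
    Hp n (fun k => a k ^ (s + 1)) (fun k => a k ^ (s + 1 - 1) * a (k + 1)) z ≠ 0 := by
  have h := hurwitz_PF ha hs hz
  have e : Hp n (fun k => a k ^ (s + 1)) (fun k => a k ^ (s + 1 - 1) * a (k + 1)) z
      = Hp n (fun k => a k * a k ^ s) (fun k => a (k + 1) * a k ^ s) z := by
    unfold Hp
    congr 1
    · refine sum_congr rfl fun k hk => ?_
      have hk' := mem_range.1 hk
      beta_reduce
      rw [Real.rpow_add (ha.1 k (by omega)), Real.rpow_one, mul_comm (a k ^ s)]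
    · refine sum_congr rfl fun k _ => ?_
      beta_reduce
      rw [add_sub_cancel_right, mul_comm (a k ^ s)]
  rw [e]
  exact h

/-- **general path**: from `r0` (with `a^(r0 - 1)` PF) to `r1`, for one sequence -/
theorem pf_path_gen {n : ℕ} {a : ℕ → ℝ} (ha : PF n a) {r0 r1 : ℝ}
    (h0 : PF n (fun k => a k ^ (r0 - 1))) (h : ∀ r, r0 < r → r ≤ r1 → NoCom n a r) {r : ℝ}
    (hr0 : r0 ≤ r) (hr1 : r ≤ r1) : PF n (fun k => a k ^ r) := by
  have hbase : ∀ z : ℂ, 0 ≤ z.re →
      Hp n (fun k => a k ^ r0) (fun k => a k ^ (r0 - 1) * a (k + 1)) z ≠ 0 := by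
    intro z hz
    have := hurwitz_succ ha h0 hz
    simpa using this
  have hpath : ∀ s ∈ Set.Icc r0 r1, ∀ z : ℂ, 0 ≤ z.re →
      Hp n ((fun (s : ℝ) (k : ℕ) => a k ^ s) s)
        ((fun (s : ℝ) (k : ℕ) => a k ^ (s - 1) * a (k + 1)) s) z ≠ 0 := by
    refine hb_path _ _ ?_ ?_ ?_ ?_ hbase
    · intro k hk
      exact (continuous_const.rpow continuous_id (fun s => Or.inl (ha.1 k hk).ne')).continuousOn
    · intro k hk
      refine (Continuous.mul ?_ continuous_const).continuousOn
      exact continuous_const.rpow (continuous_id.sub continuous_const)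
        (fun s => Or.inl (ha.1 k hk.le).ne')
    · intro s _
      exact Real.rpow_pos_of_pos (ha.1 n le_rfl) _
    · intro s hs z hz
      rcases eq_or_lt_of_le hs.1 with h1 | h1
      · rw [← h1]
        exact hbase z (by rw [hz])
      · exact hb_axis (Real.rpow_pos_of_pos (ha.1 0 (Nat.zero_le _)) _).ne' (h s h1 hs.2) z hz
  exact hb_pf (p := fun k => a k ^ r) (q := fun k => a k ^ (r - 1) * a (k + 1))
    (fun k hk => Real.rpow_pos_of_pos (ha.1 k hk) _) (hpath r ⟨hr0, hr1⟩)

/-- integer powers (Malo) -/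
theorem pf_nat {n : ℕ} {a : ℕ → ℝ} (ha : PF n a) (m : ℕ) (hm : 1 ≤ m) :
    PF n (fun k => a k ^ (m : ℝ)) := by
  induction m, hm using Nat.le_induction with
  | base => exact ha.congr fun k _ => by simp
  | succ m hm ih =>
    have h1 : PF n (fun k => a k ^ (1 : ℝ)) := ha.congr fun k _ => by simp
    have := Pool.Agent.RFS.PF_rpow_add ha.1 ih h1
    exact this.congr fun k _ => by push_cast; rfl

/-- **all exponents `r ≥ m`** for the sequence `a`, from the absence of common zeros for the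
exponents in the open interval `(m, m+1)` -/
theorem pf_ge {n : ℕ} {a : ℕ → ℝ} (ha : PF n a) (m : ℕ) (hm : 2 ≤ m)
    (h : ∀ r : ℝ, m < r → r < m + 1 → NoCom n a r) {r : ℝ} (hr : (m : ℝ) ≤ r) :
    PF n (fun k => a k ^ r) := by
  have h1 : PF n (fun k => a k ^ (1 : ℝ)) := ha.congr fun k _ => by simp
  have hm1 : PF n (fun k => a k ^ ((m : ℝ) - 1)) := by
    have := pf_nat ha (m - 1) (by omega)
    rw [Nat.cast_sub (by omega)] at this
    simpa using this
  have hbase : ∀ s : ℝ, m ≤ s → s < m + 1 → PF n (fun k => a k ^ s) := by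
    intro s hs1 hs2
    refine pf_path_gen ha hm1 (r1 := s) ?_ hs1 le_rfl
    intro t ht1 ht2
    exact h t ht1 (lt_of_le_of_lt ht2 hs2)
  have key : ∀ l : ℕ, ∀ s : ℝ, m ≤ s → s < m + 1 + l → PF n (fun k => a k ^ s) := by
    intro l
    induction l with
    | zero =>
      intro s hs1 hs2
      exact hbase s hs1 (by simpa using hs2)
    | succ l ih =>
      intro s hs1 hs2
      rcases lt_or_ge s (m + 1) with h3 | h3
      · exact hbase s hs1 h3
      · have h4 := ih (s - 1) (by linarith) (by push_cast at hs2; linarith)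
        have := Pool.Agent.RFS.PF_rpow_add ha.1 h4 h1
        simpa using this
  obtain ⟨l, hl⟩ := exists_nat_gt (r - (m + 1))
  exact key l r hr (by linarith)

/-- **Base** from the absence of common zeros (`2 < r < 3`) -/
theorem base_of_noCom (h : ∀ {n : ℕ} {a : ℕ → ℝ}, PF n a → ∀ r : ℝ, 2 < r → r < 3 → NoCom n a r) :
    Base := by
  intro n a ha r hr2 hr3
  refine pf_ge ha 2 le_rfl (fun s hs1 hs2 => h ha s (by exact_mod_cast hs1) ?_) ?_
  · push_cast at hs2
    linarith
  · exact_mod_cast hr2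

/-- **Base** from the absence of common zeros -/
theorem base_of_noCommon (h : ∀ {n : ℕ} (w : Fin n → ℝ), (∀ i, 0 < w i) → NoCommon w univ) :
    Base := by
  intro n a ha r hr2 hr3
  obtain ⟨w, hw, haw⟩ := Pool.Agent.RFS.exists_esy ha
  have h1 := pf_path hw univ (h w hw) hr2 hr3
  rw [card_univ, Fintype.card_fin] at h1
  have ha0 := ha.1 0 (Nat.zero_le _)
  refine (h1.const_mul (Real.rpow_pos_of_pos ha0 r)).congr (fun k hk => ?_)
  have hk' : k ≤ (univ : Finset (Fin n)).card := by simpa using hk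
  have h2 : 0 ≤ RL1.esy w univ k := (RL2.esy_pos hw hk').le
  rw [haw k hk, esy_eq, Real.mul_rpow ha0.le h2]

/-- **Base** from `T00` -/
theorem base_of_T00 (h : ∀ {n : ℕ} (w : Fin n → ℝ), (∀ i, 0 < w i) → T00 w univ) : Base :=
  base_of_noCommon fun w hw => (h w hw).noCommon

end JR
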