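import Pool.Agent.JR.Closure
import Pool.Agent.JR.KInt
import Pool.Agent.GM65.Simple

/-!
MP_3f3e0f_an: reduction of the complete answer to the inequality (RAY) of board 1477.
-/

set_option linter.unusedSectionVars false

open Finset Filter Topology

namespace JR

open Pool.Agent.H62LR

variable {α : Type*} [DecidableEq α]

/-- shift of a coefficient sequence (multiplication by `x`) -/
def sh (c : ℕ → ℝ) : ℕ → ℝ
  | 0 => 0
  | (k + 1) => c k

lemma sh_zero (c : ℕ → ℝ) : sh c 0 = 0 := rfl

lemma sh_succ (c : ℕ → ℝ) (k : ℕ) : sh c (k + 1) = c k := rfl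

/-- `(-X)^k a_k^s` against `p`, `a = esy w univ` -/
noncomputable def Gam {n : ℕ} (w : Fin n → ℝ) (s X : ℝ) (p : ℕ → ℝ) : ℝ :=
  ∑ k ∈ range (n + 1), (-X) ^ k * RL1.esy w univ k ^ s * p k

/-- the inequality `M_0 M_2 < M_1^2` for the pair `l, m` -/
def RayAt {n : ℕ} (w : Fin n → ℝ) (l m : Fin n) (s X : ℝ) : Prop :=
  Gam w s X (RL1.esy w (univ \ {l, m})) * Gam w s X (sh (sh (RL1.esy w (univ \ {l, m})))) <
    Gam w s X (sh (RL1.esy w (univ \ {l, m}))) ^ 2

lemma esy_insert (w : α → ℝ) {V : Finset α} {a : α} (ha : a ∉ V) (k : ℕ) :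
    RL1.esy w (insert a V) k = RL1.esy w V k + w a * sh (RL1.esy w V) k := by
  cases k with
  | zero => rw [esy_zero, esy_zero, sh_zero, mul_zero, add_zero]
  | succ k =>
    rw [sh_succ]
    unfold RL1.esy
    rw [powersetCard_succ_insert ha, sum_union]
    · congr 1
      rw [sum_image, mul_sum]
      · refine sum_congr rfl fun A hA => ?_
        have h1 : a ∉ A := fun h => ha ((mem_powersetCard.1 hA).1 h)
        unfold RL1.wt
        rw [prod_insert h1]
      · intro A hA B hB h
        have h1 : a ∉ A := fun h => ha ((mem_powersetCard.1 hA).1 h)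
        have h2 : a ∉ B := fun h => ha ((mem_powersetCard.1 hB).1 h)
        have h3 := congrArg (fun S => S.erase a) h
        simpa [erase_insert h1, erase_insert h2] using h3
    · rw [disjoint_left]
      intro A hA hB
      obtain ⟨B, hB, rfl⟩ := mem_image.1 hB
      exact ha ((mem_powersetCard.1 hA).1 (mem_insert_self a B))

lemma sh_add (c d : ℕ → ℝ) (t : ℝ) (k : ℕ) :
    sh (fun k => c k + t * d k) k = sh c k + t * sh d k := by
  cases k with
  | zero => simp [sh_zero]
  | succ k => simp [sh_succ]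

lemma sh_congr {c d : ℕ → ℝ} (h : ∀ k, c k = d k) (k : ℕ) : sh c k = sh d k := by
  cases k with
  | zero => rfl
  | succ k => exact h k

lemma sh_sum (s : Finset α) (f : α → ℝ) (g : α → ℕ → ℝ) (k : ℕ) :
    ∑ l ∈ s, f l * sh (g l) k = sh (fun k => ∑ l ∈ s, f l * g l k) k := by
  cases k with
  | zero => simp [sh_zero]
  | succ k => simp [sh_succ]

lemma sum_erase_esy (w : α → ℝ) (V : Finset α) (k : ℕ) :
    ∑ l ∈ V, w l * sh (RL1.esy w (V.erase l)) k = k * RL1.esy w V k := by
  induction V using Finset.induction_on generalizing k with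
  | empty =>
    cases k with
    | zero => simp
    | succ k =>
      have h : RL1.esy w (∅ : Finset α) (k + 1) = 0 := by
        unfold RL1.esy
        rw [powersetCard_eq_empty.2 (by simp)]
        simp
      rw [h]
      simp
  | insert a V ha ih =>
    rw [sum_insert ha, erase_insert ha]
    have h1 : ∑ l ∈ V, w l * sh (RL1.esy w ((insert a V).erase l)) k =
        ∑ l ∈ V, w l * sh (RL1.esy w (V.erase l)) k +
          w a * ∑ l ∈ V, w l * sh (sh (RL1.esy w (V.erase l))) k := by
      rw [mul_sum, ← sum_add_distrib]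
      refine sum_congr rfl fun l hl => ?_
      have hla : l ≠ a := fun h => ha (h ▸ hl)
      have h2 : (insert a V).erase l = insert a (V.erase l) := erase_insert_of_ne (fun h => hla h.symm)
      rw [h2]
      have h3 : a ∉ V.erase l := fun h => ha (mem_of_mem_erase h)
      rw [sh_congr (esy_insert w h3) k, sh_add]
      ring
    rw [h1, ih, sh_sum V w (fun l => sh (RL1.esy w (V.erase l))) k, sh_congr ih k, esy_insert w ha]
    cases k with
    | zero => simp [sh_zero]
    | succ k =>
      simp only [sh_succ]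
      push_cast
      ring

section fin

variable {n : ℕ}

lemma Gam_add (w : Fin n → ℝ) (s X : ℝ) (p q : ℕ → ℝ) (t : ℝ) :
    Gam w s X (fun k => p k + t * q k) = Gam w s X p + t * Gam w s X q := by
  unfold Gam
  rw [mul_sum, ← sum_add_distrib]
  exact sum_congr rfl fun k _ => by ring

lemma Gam_congr (w : Fin n → ℝ) (s X : ℝ) {p q : ℕ → ℝ} (h : ∀ k, p k = q k) :
    Gam w s X p = Gam w s X q := by
  unfold Gam
  exact sum_congr rfl fun k _ => by rw [h k]

lemma erase_eq {l m : Fin n} (hlm : l ≠ m) :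
    (univ : Finset (Fin n)).erase l = insert m (univ \ {l, m}) := by
  ext i
  simp
  by_cases h : i = m
  · subst h
    simp
    exact fun h => hlm h.symm
  · simp [h]

/-- `D_l = Γ(x a^{(l)})` -/
noncomputable def Dl (w : Fin n → ℝ) (s X : ℝ) (l : Fin n) : ℝ :=
  Gam w s X (sh (RL1.esy w (univ.erase l)))

lemma esy_erase (w : Fin n → ℝ) {l m : Fin n} (hlm : l ≠ m) (k : ℕ) :
    RL1.esy w (univ.erase l) k =
      RL1.esy w (univ \ {l, m}) k + w m * sh (RL1.esy w (univ \ {l, m})) k := by
  rw [erase_eq hlm]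
  exact esy_insert w (by simp) k

lemma esy_univ (w : Fin n → ℝ) (l : Fin n) (k : ℕ) :
    RL1.esy w univ k = RL1.esy w (univ.erase l) k + w l * sh (RL1.esy w (univ.erase l)) k := by
  have h := esy_insert w (V := univ.erase l) (a := l) (by simp) k
  rwa [insert_erase (mem_univ l)] at h

lemma Dl_eq (w : Fin n → ℝ) (s X : ℝ) {l m : Fin n} (hlm : l ≠ m) :
    Dl w s X l = Gam w s X (sh (RL1.esy w (univ \ {l, m}))) +
      w m * Gam w s X (sh (sh (RL1.esy w (univ \ {l, m})))) := by
  unfold Dl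
  rw [← Gam_add]
  refine Gam_congr w s X fun k => ?_
  rw [sh_congr (esy_erase w hlm) k, sh_add]

lemma F_eq (w : Fin n → ℝ) (s X : ℝ) {l m : Fin n} (hlm : l ≠ m) :
    Gam w s X (RL1.esy w univ) = Gam w s X (RL1.esy w (univ \ {l, m})) +
      (w l + w m) * Gam w s X (sh (RL1.esy w (univ \ {l, m}))) +
      w l * w m * Gam w s X (sh (sh (RL1.esy w (univ \ {l, m})))) := by
  rw [Gam_congr w s X (esy_univ w l), Gam_add, Gam_congr w s X (esy_erase w hlm), Gam_add]
  have h := Dl_eq w s X hlm
  unfold Dl at h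
  rw [h]
  ring

/-- at a zero of `F` the partial derivatives in `l` and `m` have the same strict sign -/
lemma Dl_mul_pos {w : Fin n → ℝ} {s X : ℝ} {l m : Fin n} (hlm : l ≠ m) (h : RayAt w l m s X)
    (h0 : Gam w s X (RL1.esy w univ) = 0) : 0 < Dl w s X l * Dl w s X m := by
  have h1 := Dl_eq w s X hlm
  have h2 := Dl_eq w s X hlm.symm
  have h3 := F_eq w s X hlm
  rw [h0] at h3
  have hset : (univ : Finset (Fin n)) \ {m, l} = univ \ {l, m} := by rw [pair_comm]
  rw [hset] at h2
  unfold RayAt at h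
  set M0 := Gam w s X (RL1.esy w (univ \ {l, m}))
  set M1 := Gam w s X (sh (RL1.esy w (univ \ {l, m})))
  set M2 := Gam w s X (sh (sh (RL1.esy w (univ \ {l, m}))))
  have e : Dl w s X l * Dl w s X m = M1 ^ 2 - M0 * M2 := by
    rw [h1, h2]
    linear_combination (-M2) * h3
  rw [e]
  linarith

lemma sum_Dl (w : Fin n → ℝ) (s X : ℝ) :
    ∑ l, w l * Dl w s X l =
      ∑ k ∈ range (n + 1), (k : ℝ) * ((-X) ^ k * RL1.esy w univ k ^ s * RL1.esy w univ k) := by
  unfold Dl Gam
  have h1 : ∀ l : Fin n, w l * ∑ k ∈ range (n + 1), (-X) ^ k * RL1.esy w univ k ^ s *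
      sh (RL1.esy w (univ.erase l)) k = ∑ k ∈ range (n + 1), (-X) ^ k * RL1.esy w univ k ^ s *
        (w l * sh (RL1.esy w (univ.erase l)) k) := by
    intro l
    rw [mul_sum]
    exact sum_congr rfl fun k _ => by ring
  simp_rw [h1]
  rw [sum_comm]
  refine sum_congr rfl fun k _ => ?_
  rw [← mul_sum, sum_erase_esy]
  ring

/-- `F` and its derivative are not both zero if all `D_l` have the same strict sign -/
lemma no_double_of_Dl {w : Fin n → ℝ} (hw : ∀ i, 0 < w i) {s X : ℝ}
    (hD : Gam w s X (RL1.esy w univ) = 0 → (∀ l, 0 < Dl w s X l) ∨ (∀ l, Dl w s X l < 0))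
    (h0 : ∑ k ∈ range (n + 1), RL1.esy w univ k ^ (1 + s) * (-X) ^ k = 0)
    (h1 : ∑ k ∈ range (n + 1), (k : ℝ) * (RL1.esy w univ k ^ (1 + s) * (-X) ^ k) = 0) : False := by
  have hcard : (univ : Finset (Fin n)).card = n := by simp
  have hpow : ∀ k ∈ range (n + 1), RL1.esy w univ k ^ (1 + s) =
      RL1.esy w univ k ^ s * RL1.esy w univ k := by
    intro k hk
    have h2 : 0 < RL1.esy w univ k := RFS53.esy_pos hw (by
      rw [hcard]
      exact Nat.lt_succ_iff.1 (mem_range.1 hk))
    rw [add_comm, Real.rpow_add h2, Real.rpow_one]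
  have e0 : Gam w s X (RL1.esy w univ) = 0 := by
    rw [← h0]
    unfold Gam
    refine sum_congr rfl fun k hk => ?_
    rw [hpow k hk]
    ring
  have e1 : ∑ l, w l * Dl w s X l = 0 := by
    rw [sum_Dl, ← h1]
    refine sum_congr rfl fun k hk => ?_
    rw [hpow k hk]
    ring
  rcases Nat.eq_zero_or_pos n with hn | hn
  · subst hn
    simp [esy_zero] at h0
  · have hne : (univ : Finset (Fin n)).Nonempty := ⟨⟨0, hn⟩, mem_univ _⟩
    rcases hD e0 with h | h
    · have := sum_pos (fun l _ => mul_pos (hw l) (h l)) hne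
      linarith
    · have h2 : 0 < ∑ l, w l * -Dl w s X l :=
        sum_pos (fun l _ => mul_pos (hw l) (neg_pos.2 (h l))) hne
      simp only [mul_neg, sum_neg_distrib] at h2
      linarith

/-- all `D_l` have the same sign, if (RAY) holds for all pairs -/
lemma Dl_sign {w : Fin n → ℝ} (hw : ∀ i, 0 < w i) {s X : ℝ} (hX : 0 < X)
    (h : ∀ l m : Fin n, l ≠ m → RayAt w l m s X) (h0 : Gam w s X (RL1.esy w univ) = 0) :
    (∀ l, 0 < Dl w s X l) ∨ (∀ l, Dl w s X l < 0) := by
  rcases Nat.eq_zero_or_pos n with hn | hn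
  · subst hn
    exact Or.inl fun l => l.elim0
  rcases Nat.lt_or_ge 1 n with hn2 | hn2
  · have key : ∀ l m : Fin n, l ≠ m → 0 < Dl w s X l * Dl w s X m :=
      fun l m hlm => Dl_mul_pos hlm (h l m hlm) h0
    set l0 : Fin n := ⟨0, hn⟩
    have hne : Dl w s X l0 ≠ 0 := by
      intro h1
      have h2 := key l0 ⟨1, hn2⟩ (by simp [l0, Fin.ext_iff])
      rw [h1, zero_mul] at h2
      exact lt_irrefl _ h2
    rcases lt_or_gt_of_ne hne with h1 | h1
    · right
      intro l
      by_cases hl : l = l0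
      · rw [hl]
        exact h1
      · have h2 := key l0 l (fun h => hl h.symm)
        by_contra h3
        push Not at h3
        have := mul_nonpos_of_nonpos_of_nonneg h1.le h3
        linarith
    · left
      intro l
      by_cases hl : l = l0
      · rw [hl]
        exact h1
      · have h2 := key l0 l (fun h => hl h.symm)
        by_contra h3
        push Not at h3
        have := mul_nonpos_of_nonneg_of_nonpos h1.le h3
        linarith
  · -- `n = 1`
    right
    intro l
    have hn1 : n = 1 := by omega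
    subst hn1
    have hl : (univ : Finset (Fin 1)).erase l = ∅ := by
      have : l = 0 := Subsingleton.elim _ _
      subst this
      rfl
    unfold Dl Gam
    rw [hl]
    have h1 : 0 < RL1.esy w univ 1 := RFS53.esy_pos hw (by simp)
    have h2 := Real.rpow_pos_of_pos h1 s
    rw [sum_range_succ, sum_range_one, sh_zero, sh_succ, esy_zero w ∅]
    simp only [mul_zero, zero_add, pow_one, mul_one]
    have := mul_pos hX h2
    linarith

end fin

/-- (RAY) for all pairs, exponents `1 < s < 2` -/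
def RAY {n : ℕ} (w : Fin n → ℝ) : Prop :=
  ∀ s : ℝ, 1 < s → s < 2 → ∀ X : ℝ, 0 < X → ∀ l m : Fin n, l ≠ m → RayAt w l m s X

/-- the homotopy in the exponent -/
lemma pf_of_no_double {n : ℕ} {w : Fin n → ℝ}
    (h : ∀ s : ℝ, 1 < s → s < 2 → ∀ X : ℝ, 0 < X →
      ∑ k ∈ range (n + 1), RL1.esy w univ k ^ (1 + s) * (-X) ^ k = 0 →
      ∑ k ∈ range (n + 1), (k : ℝ) * (RL1.esy w univ k ^ (1 + s) * (-X) ^ k) = 0 → False)
    (hPF : PF n (RL1.esy w univ)) {r : ℝ} (h2 : 2 ≤ r) (h3 : r ≤ 3) :
    PF n (fun k => RL1.esy w univ k ^ r) := by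
  have hpos : ∀ k ≤ n, 0 < RL1.esy w univ k := hPF.1
  have hP1 : PF n (fun k => RL1.esy w univ k ^ (1 : ℝ)) :=
    hPF.congr (fun k _ => (Real.rpow_one _).symm)
  have hP2 : PF n (fun k => RL1.esy w univ k ^ (2 : ℝ)) := by
    have := Pool.Agent.RFS.PF_rpow_add hpos hP1 hP1
    exact this.congr fun k _ => by norm_num
  rcases h3.eq_or_lt with h3 | h3
  · have := Pool.Agent.RFS.PF_rpow_add hpos hP2 hP1
    exact this.congr fun k _ => by
      rw [h3]
      norm_num
  · refine homotopy (n := n) (c := 2) (d := r) (fun r k => RL1.esy w univ k ^ r) ?_ ?_ hP2 ?_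
      r ⟨h2, le_rfl⟩
    · intro k hk
      exact (continuous_const.rpow continuous_id (fun s => Or.inl (hpos k hk).ne')).continuousOn
    · intro s _ k hk
      exact Real.rpow_pos_of_pos (hpos k hk) _
    · intro s hs x hx e0 e1
      rcases hs.1.eq_or_lt with h4 | h4
      · subst h4
        have hs := Pool.Agent.GM65.simple_sq hPF
        refine hs x hx ?_ ?_
        · rw [← e0]
          exact sum_congr rfl fun k _ => by simp only [Real.rpow_two]
        · rw [← e1]
          exact sum_congr rfl fun k _ => by simp only [Real.rpow_two]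
      · refine h (s - 1) (by linarith) (by linarith [hs.2]) (-x) (by linarith) ?_ ?_
        · rw [← e0]
          refine sum_congr rfl fun k _ => ?_
          rw [neg_neg]
          congr 2
          ring
        · rw [← e1]
          refine sum_congr rfl fun k _ => ?_
          rw [neg_neg]
          congr 3
          ring

/-- `∏ (1 + w_i z)` -/
lemma pf_esy {n : ℕ} {w : Fin n → ℝ} (hw : ∀ i, 0 < w i) : PF n (RL1.esy w univ) := by
  have hcard : (univ : Finset (Fin n)).card = n := by simp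
  refine ⟨fun k hk => RFS53.esy_pos hw (by rw [hcard]; exact hk), fun z hz h0 => ?_⟩
  have h1 : ev n (RL1.esy w univ) z = ∏ i, (1 + (w i : ℂ) * z) := by
    rw [Finset.prod_one_add, Finset.sum_powerset, hcard]
    unfold ev
    refine sum_congr rfl fun k _ => ?_
    unfold RL1.esy RL1.wt
    push_cast
    rw [sum_mul]
    refine sum_congr rfl fun A hA => ?_
    rw [prod_mul_distrib, prod_const, (mem_powersetCard.1 hA).2]
  rw [h1] at h0
  obtain ⟨i, _, hi⟩ := prod_eq_zero_iff.1 h0
  have h2 := congrArg Complex.im hi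
  simp at h2
  rcases h2 with h2 | h2
  · exact (hw i).ne' h2
  · exact hz.ne' h2

/-- from the sequences `esy w` to all `PF` sequences -/
lemma base_of_esy (h : ∀ {n : ℕ} (w : Fin n → ℝ), (∀ i, 0 < w i) → ∀ r : ℝ, 2 ≤ r → r ≤ 3 →
    PF n (fun k => RL1.esy w univ k ^ r)) : Base := by
  intro n a ha r h2 h3
  obtain ⟨w, hw, haw⟩ := Pool.Agent.RFS.exists_esy ha
  have ha0 := ha.1 0 (Nat.zero_le _)
  have h1 := (h w hw r h2 h3).const_mul (Real.rpow_pos_of_pos ha0 r)
  refine h1.congr fun k hk => ?_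
  have h4 : 0 < RL1.esy w univ k := (pf_esy hw).1 k hk
  have h5 : RFS53.esy w univ k = RL1.esy w univ k := rfl
  rw [haw k hk, h5, Real.mul_rpow ha0.le h4.le]

/-- **Reduction to (RAY).** If `M_0 M_2 < M_1^2` for all pairs of roots, all `1 < s < 2` and
all `X > 0`, then all Hadamard powers with exponent in `[2,3]` of all `PF` sequences are `PF`. -/
theorem base_of_ray (h : ∀ {n : ℕ} (w : Fin n → ℝ), (∀ i, 0 < w i) → RAY w) : Base :=
  base_of_esy fun w hw _ h2 h3 => pf_of_no_double
    (fun s h1 h2 X hX => no_double_of_Dl hw (fun h0 => Dl_sign hw hX (h w hw s h1 h2 X hX) h0))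
    (pf_esy hw) h2 h3

/-! ### Only simple roots, only adjacent pairs -/

/-- `l` and `m` are adjacent in value -/
def Adj {n : ℕ} (w : Fin n → ℝ) (l m : Fin n) : Prop :=
  w l < w m ∧ ∀ j, w l < w j → w j < w m → False

/-- (RAY) for adjacent pairs, exponents `1 < s < 2` -/
def RAYadj {n : ℕ} (w : Fin n → ℝ) : Prop :=
  ∀ s : ℝ, 1 < s → s < 2 → ∀ X : ℝ, 0 < X → ∀ l m : Fin n, Adj w l m → RayAt w l m s X

/-- signs which agree at adjacent points agree everywhere -/
lemma sign_of_adj {n : ℕ} (hn : 1 < n) {w : Fin n → ℝ} (hinj : Function.Injective w)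
    {D : Fin n → ℝ} (h : ∀ l m, Adj w l m → 0 < D l * D m) :
    (∀ l, 0 < D l) ∨ (∀ l, D l < 0) := by
  have hadj : ∀ (P : Fin n → Fin n → Prop), (∃ l m, w l < w m ∧ P l m) →
      ∃ l m, w l < w m ∧ P l m ∧ ∀ l' m', w l' < w m' → P l' m' → w m - w l ≤ w m' - w l' := by
    intro P hP
    obtain ⟨l, m, hlm, hPlm⟩ := hP
    classical
    set S : Finset (Fin n × Fin n) :=
      (univ : Finset (Fin n × Fin n)).filter (fun p => w p.1 < w p.2 ∧ P p.1 p.2) with hS
    have hne : S.Nonempty := ⟨(l, m), by rw [hS, mem_filter]; exact ⟨mem_univ _, hlm, hPlm⟩⟩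
    obtain ⟨p, hp, hmin⟩ := exists_min_image S (fun p => w p.2 - w p.1) hne
    rw [hS, mem_filter] at hp
    refine ⟨p.1, p.2, hp.2.1, hp.2.2, fun l' m' h1 h2 => ?_⟩
    exact hmin (l', m') (by rw [hS, mem_filter]; exact ⟨mem_univ _, h1, h2⟩)
  -- no zeros
  have hne : ∀ l, D l ≠ 0 := by
    intro l hl
    obtain ⟨m, hm⟩ : ∃ m : Fin n, m ≠ l := by
      by_cases h0 : l = ⟨0, by omega⟩
      · exact ⟨⟨1, hn⟩, by rw [h0]; simp [Fin.ext_iff]⟩
      · exact ⟨⟨0, by omega⟩, fun h => h0 h.symm⟩
    have hwm : w m ≠ w l := fun h => hm (hinj h)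
    obtain ⟨l1, m1, h1, h2, h3⟩ := hadj (fun a b => a = l ∨ b = l) (by
      rcases lt_or_gt_of_ne hwm with h | h
      · exact ⟨m, l, h, Or.inr rfl⟩
      · exact ⟨l, m, h, Or.inl rfl⟩)
    have h4 : Adj w l1 m1 := by
      refine ⟨h1, fun j hj1 hj2 => ?_⟩
      rcases h2 with h2 | h2
      · have := h3 l1 j hj1 (Or.inl h2)
        linarith
      · have := h3 j m1 hj2 (Or.inr h2)
        linarith
    have h5 := h l1 m1 h4
    rcases h2 with h2 | h2
    · rw [h2, hl, zero_mul] at h5
      exact lt_irrefl _ h5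
    · rw [h2, hl, mul_zero] at h5
      exact lt_irrefl _ h5
  by_contra hcon
  push Not at hcon
  obtain ⟨⟨a, ha⟩, ⟨b, hb⟩⟩ := hcon
  have ha' : D a < 0 := lt_of_le_of_ne ha (hne a)
  have hb' : 0 < D b := lt_of_le_of_ne hb (hne b).symm
  have hwab : w a ≠ w b := by
    intro h
    rw [hinj h] at ha'
    linarith
  obtain ⟨l1, m1, h1, h2, h3⟩ := hadj (fun a b => D a * D b < 0) (by
    rcases lt_or_gt_of_ne hwab with h | h
    · exact ⟨a, b, h, mul_neg_of_neg_of_pos ha' hb'⟩
    · exact ⟨b, a, h, mul_neg_of_pos_of_neg hb' ha'⟩)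
  have h4 : Adj w l1 m1 := by
    refine ⟨h1, fun j hj1 hj2 => ?_⟩
    rcases lt_or_gt_of_ne (hne j) with hj | hj
    · rcases lt_or_gt_of_ne (hne l1) with h5 | h5
      · have h6 : 0 < D m1 := by
          by_contra h7
          push Not at h7
          have := mul_nonneg_of_nonpos_of_nonpos h5.le h7
          linarith
        have := h3 j m1 hj2 (mul_neg_of_neg_of_pos hj h6)
        linarith
      · have := h3 l1 j hj1 (mul_neg_of_pos_of_neg h5 hj)
        linarith
    · rcases lt_or_gt_of_ne (hne l1) with h5 | h5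
      · have := h3 l1 j hj1 (mul_neg_of_neg_of_pos h5 hj)
        linarith
      · have h6 : D m1 < 0 := by
          by_contra h7
          push Not at h7
          have := mul_nonneg h5.le h7
          linarith
        have := h3 j m1 hj2 (mul_neg_of_pos_of_neg hj h6)
        linarith
  have := h l1 m1 h4
  linarith

/-- limits of `PF` sequences -/
lemma pf_of_tendsto {ι : Type*} {F : Filter ι} [F.NeBot] {n : ℕ} {b : ι → ℕ → ℝ} {a : ℕ → ℝ}
    (ha : ∀ k ≤ n, 0 < a k) (hb : ∀ᶠ i in F, PF n (b i))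
    (hlim : ∀ k ≤ n, Tendsto (fun i => b i k) F (𝓝 (a k))) : PF n a := by
  refine ⟨ha, fun z hz h0 => ?_⟩
  have h1 : Tendsto (fun i => ‖ev n (b i) z‖) F (𝓝 ‖ev n a z‖) := by
    refine Tendsto.norm ?_
    unfold ev
    refine tendsto_finsetSum _ fun k hk => ?_
    refine Tendsto.mul ?_ tendsto_const_nhds
    exact (Complex.continuous_ofReal.tendsto _).comp (hlim k (Nat.lt_succ_iff.1 (mem_range.1 hk)))
  have h2 : Tendsto (fun i => b i n * z.im ^ n) F (𝓝 (a n * z.im ^ n)) :=
    (hlim n le_rfl).mul tendsto_const_nhds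
  have h3 := le_of_tendsto_of_tendsto h2 h1 (hb.mono fun i hi => hi.lower hz)
  rw [h0, norm_zero] at h3
  have := mul_pos (ha n le_rfl) (pow_pos hz n)
  linarith

/-- **Reduction to (RAY) for adjacent simple roots.** -/
theorem base_of_ray_adj (h : ∀ {n : ℕ} (w : Fin n → ℝ), (∀ i, 0 < w i) → Function.Injective w →
    RAYadj w) : Base := by
  have hinj : ∀ {n : ℕ} (w : Fin n → ℝ), (∀ i, 0 < w i) → Function.Injective w →
      ∀ r : ℝ, 2 ≤ r → r ≤ 3 → PF n (fun k => RL1.esy w univ k ^ r) := by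
    intro n w hw hi r h2 h3
    refine pf_of_no_double (fun s h1 h2 X hX => no_double_of_Dl hw (fun h0 => ?_))
      (pf_esy hw) h2 h3
    rcases Nat.lt_or_ge 1 n with hn | hn
    · exact sign_of_adj hn hi fun l m hlm =>
        Dl_mul_pos (fun h => by rw [h] at hlm; exact lt_irrefl _ hlm.1)
          (h w hw hi s h1 h2 X hX l m hlm) h0
    · have hsub : ∀ l m : Fin n, l ≠ m → RayAt w l m s X := by
        intro l m hlm
        exfalso
        apply hlm
        rw [Fin.ext_iff]
        omega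
      exact Dl_sign hw hX hsub h0
  apply base_of_esy
  intro n w hw r h2 h3
  -- perturbation
  set u : ℝ → Fin n → ℝ := fun t i => w i + t * (i : ℕ) with hu
  have hpos : ∀ t : ℝ, 0 < t → ∀ i, 0 < u t i := by
    intro t ht i
    have := hw i
    have h4 : (0 : ℝ) ≤ t * (i : ℕ) := mul_nonneg ht.le (Nat.cast_nonneg _)
    simp only [hu]
    linarith
  have hev : ∀ᶠ t in 𝓝[>] (0 : ℝ), Function.Injective (u t) := by
    have h4 : ∀ i j : Fin n, ∀ᶠ t in 𝓝[>] (0 : ℝ), u t i = u t j → i = j := by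
      intro i j
      by_cases hij : w i = w j
      · filter_upwards [self_mem_nhdsWithin] with t ht h5
        have ht' : (0 : ℝ) < t := ht
        simp only [hu, hij] at h5
        have h6 : t * ((i : ℕ) : ℝ) = t * ((j : ℕ) : ℝ) := by linarith
        have h7 := mul_left_cancel₀ ht'.ne' h6
        exact Fin.ext (by exact_mod_cast h7)
      · have h5 : Tendsto (fun t : ℝ => u t i - u t j) (𝓝[>] 0) (𝓝 (w i - w j)) := by
          have h6 : Continuous (fun t : ℝ => u t i - u t j) := by
            simp only [hu]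
            fun_prop
          have h7 := h6.tendsto 0
          simp only [hu, zero_mul, add_zero] at h7
          exact h7.mono_left nhdsWithin_le_nhds
        have h6 : ∀ᶠ t in 𝓝[>] (0 : ℝ), u t i - u t j ≠ 0 :=
          h5.eventually_ne (sub_ne_zero.2 hij)
        filter_upwards [h6] with t ht h7
        exact absurd (sub_eq_zero.2 h7) ht
    have h5 : ∀ᶠ t in 𝓝[>] (0 : ℝ), ∀ i j : Fin n, u t i = u t j → i = j :=
      eventually_all.2 fun i => eventually_all.2 fun j => h4 i j
    filter_upwards [h5] with t ht i j hij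
    exact ht i j hij
  have hesy : ∀ k, Continuous (fun t : ℝ => RL1.esy (u t) univ k) := by
    intro k
    unfold RL1.esy RL1.wt
    simp only [hu]
    fun_prop
  have hesy0 : ∀ k, RL1.esy (u 0) univ k = RL1.esy w univ k := by
    intro k
    have : u 0 = w := by
      ext i
      simp [hu]
    rw [this]
  refine pf_of_tendsto (F := 𝓝[>] (0 : ℝ)) (b := fun t k => RL1.esy (u t) univ k ^ r)
    (fun k hk => Real.rpow_pos_of_pos ((pf_esy hw).1 k hk) _) ?_ fun k hk => ?_
  · filter_upwards [hev, self_mem_nhdsWithin] with t ht ht0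
    exact hinj (u t) (hpos t ht0) ht r h2 h3
  · have h4 := (hesy k).tendsto 0
    rw [hesy0 k] at h4
    exact (h4.mono_left nhdsWithin_le_nhds).rpow_const (Or.inl ((pf_esy hw).1 k hk).ne')

end JR
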